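import Pool.Agent.Lib.MP_0430e4_lc.YG.A4
import Pool.Agent.Lib.MP_0430e4_lc.LPLOW.ContI2

/-!
# Angular monotonicity, part 1: `Im TT ≥ 0` for `TT = S (cT η)` on `0 ≤ Re s < 2η`, `0 ≤ Im s ≤ π`

`TT` is analytic for `|Re s| < 2η`; its imaginary part vanishes on `Re s = 0`, `Im s = 0`,
`Im s = π`, and `TT (s + η) + TT (s - η) = 2 AA s`.
-/

set_option autoImplicit false

namespace Pool.Agent.Lib.MP_0430e4_lc.YA

open Complex LPLOW Filter Topology Set YG
open Exact (sech)

variable {η : ℝ}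

/-- the contact function -/
noncomputable def TT (η : ℝ) (s : ℂ) : ℂ := S (cT η) s

theorem TT_deriv (hη : 0 < η) {s : ℂ} (hs : |s.re| < 2 * η) :
    HasDerivAt (TT η) (S (fun k => (k : ℝ) * cT η k) s) s := (dec_cT hη).hasDerivAt hs

theorem TT_diff (hη : 0 < η) {s : ℂ} (hs : |s.re| < 2 * η) : DifferentiableAt ℂ (TT η) s :=
  (TT_deriv hη hs).differentiableAt

theorem TT_neg (s : ℂ) : TT η (-s) = TT η s := S_neg (cT_neg η) s

theorem TT_conj (s : ℂ) : TT η (starRingEnd ℂ s) = starRingEnd ℂ (TT η s) := S_conj _ _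

theorem TT_add_pi (s : ℂ) : TT η (s + Real.pi * I) = -TT η s :=
  S_add_pi_odd (fun k hk => by unfold cT; rw [if_neg hk]) s

theorem TT_im_of_re_zero {s : ℂ} (h : s.re = 0) : (TT η s).im = 0 := S_real_imag (cT_neg η) s h

theorem TT_im_of_im_zero {s : ℂ} (h : s.im = 0) : (TT η s).im = 0 := S_real_real s h

theorem TT_sheet (s : ℂ) : TT η (Real.pi * I - s) = -TT η s := by
  rw [show (Real.pi : ℂ) * I - s = -s + Real.pi * I by ring, TT_add_pi, TT_neg]

/-- reflection in `Im s = π/2` -/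
theorem TT_refl (s : ℂ) : TT η (starRingEnd ℂ s + Real.pi * I) = -starRingEnd ℂ (TT η s) := by
  rw [TT_add_pi, TT_conj]

theorem TT_im_of_im_pi {s : ℂ} (h : s.im = Real.pi) : (TT η s).im = 0 := by
  have h1 := TT_add_pi (η := η) (s - Real.pi * I)
  have h2 : s - Real.pi * I + Real.pi * I = s := by ring
  rw [h2] at h1
  have h3 : (TT η (s - Real.pi * I)).im = 0 := TT_im_of_im_zero (by simp [h])
  rw [h1, Complex.neg_im, h3, neg_zero]

/-- `sech² (kη) · 2 cosh (kη) = 2 sech (kη)` -/
theorem TT_add (hη : 0 < η) {s : ℂ} (hs : |s.re| < η) :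
    TT η (s + η) + TT η (s - η) = 2 * AA η s := by
  have hs' := abs_lt.1 hs
  have h1 := (dec_cT hη).summable (s := s + η) (by
    rw [abs_lt]; simp; constructor <;> linarith)
  have h2 := (dec_cT hη).summable (s := s - η) (by
    rw [abs_lt]; simp; constructor <;> linarith)
  unfold TT AA S
  rw [← h1.tsum_add h2, ← tsum_mul_left]
  congr 1
  funext k
  unfold cT cA
  split_ifs with hk
  · have hc : (Real.cosh (k * η) : ℂ) ≠ 0 := by
      exact_mod_cast (Real.cosh_pos _).ne'
    have e1 : Complex.exp (k * (s + η)) + Complex.exp (k * (s - η))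
        = Complex.exp (k * s) * (2 * (Real.cosh (k * η) : ℂ)) := by
      rw [mul_add, mul_sub, sub_eq_add_neg, Complex.exp_add, Complex.exp_add, Real.cosh_eq]
      push_cast
      ring
    have e2 : ((sech (k * η) ^ 2 / 2 : ℝ) : ℂ) * (2 * (Real.cosh (k * η) : ℂ))
        = 2 * ((sech (k * η) / 2 : ℝ) : ℂ) := by
      unfold sech
      push_cast
      push_cast at hc
      field_simp
    calc _ = ((sech (k * η) ^ 2 / 2 : ℝ) : ℂ) * (Complex.exp (k * (s + η))
          + Complex.exp (k * (s - η))) := by ring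
      _ = (((sech (k * η) ^ 2 / 2 : ℝ) : ℂ) * (2 * (Real.cosh (k * η) : ℂ)))
          * Complex.exp (k * s) := by rw [e1]; ring
      _ = _ := by rw [e2]; ring
  · simp

/-! ## the Jacobi relation `CC = (OO(0)/2) sinh 2L` -/

theorem OC_eq (hη : 0 < η) {s : ℂ} (hs : |s.re| < η) :
    S (cO η) s + 2 * S (cC η) s = S (cO η) 0 * Complex.exp (2 * LL η s) := by
  have h := Jac.strip_const (η := η)
    (f := fun w => (S (cO η) w + 2 * S (cC η) w) * Complex.exp (-(2 * LL η w)))
    (fun w hw => by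
      have h1 : HasDerivAt (fun w => S (cO η) w + 2 * S (cC η) w)
          (4 * (S (cA η) w * S (cC η) w) + 2 * (S (cA η) w * S (cO η) w)) w :=
        (OO_hasDerivAt hη hw).add ((CC_hasDerivAt hη hw).const_mul 2)
      have h2 : HasDerivAt (fun w => Complex.exp (-(2 * LL η w)))
          (Complex.exp (-(2 * LL η w)) * (-(2 * AA η w))) w :=
        (((LL_deriv hη hw).const_mul 2).neg).cexp
      refine (h1.mul h2).congr_deriv ?_
      unfold AA
      ring) hs (v := 0) (by simpa using hη)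
  have h0 : LL η 0 = 0 := by
    have := LL_neg (η := η) 0
    rw [neg_zero] at this
    have h2 : (2 : ℂ) * LL η 0 = 0 := by linear_combination this
    simpa using h2
  simp only [cC_zero, h0, mul_zero, add_zero, neg_zero, Complex.exp_zero, mul_one] at h
  have h3 : Complex.exp (-(2 * LL η s)) * Complex.exp (2 * LL η s) = 1 := by
    rw [← Complex.exp_add]
    simp
  linear_combination Complex.exp (2 * LL η s) * h - (S (cO η) s + 2 * S (cC η) s) * h3

theorem LL_zero : LL η 0 = 0 := by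
  have := LL_neg (η := η) 0
  rw [neg_zero] at this
  have h2 : (2 : ℂ) * LL η 0 = 0 := by linear_combination this
  simpa using h2

theorem CC_eq (hη : 0 < η) {s : ℂ} (hs : |s.re| < η) :
    S (cC η) s = S (cO η) 0 / 2 * Complex.sinh (2 * LL η s) := by
  have h1 := OC_eq hη hs
  have h2 := OC_eq hη (s := -s) (by simpa using hs)
  rw [S_neg (cO_neg η), S_neg_odd (cC_neg η), LL_neg] at h2
  rw [Complex.sinh]
  have h3 : (2 : ℂ) * -LL η s = -(2 * LL η s) := by ring
  rw [h3] at h2
  linear_combination (1 / 4 : ℂ) * h1 - (1 / 4 : ℂ) * h2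

theorem sq_sinh (w : ℂ) : (Complex.sinh w ^ 2).im = Real.sinh (2 * w.re) * Real.sin (2 * w.im) / 2 := by
  have h1 : Complex.sinh w ^ 2 = (Complex.cosh (2 * w) - 1) / 2 := by
    rw [Complex.cosh_two_mul]
    have := Complex.cosh_sq_sub_sinh_sq w
    linear_combination (-(1 / 2 : ℂ)) * this
  have h2 : (Complex.cosh (2 * w)).im = Real.sinh (2 * w.re) * Real.sin (2 * w.im) := by
    have e : (2 * w : ℂ) = ((2 * w.re : ℝ) : ℂ) + ((2 * w.im : ℝ) : ℂ) * I := by
      apply Complex.ext <;> simp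
    rw [e, Complex.cosh_add, Complex.cosh_mul_I, Complex.sinh_mul_I, ← Complex.ofReal_cosh,
      ← Complex.ofReal_sinh, ← Complex.ofReal_cos, ← Complex.ofReal_sin]
    simp only [Complex.add_im, Complex.mul_re, Complex.mul_im, Complex.ofReal_re,
      Complex.ofReal_im, Complex.I_re, Complex.I_im]
    ring
  rw [h1]
  have h3 : ((Complex.cosh (2 * w) - 1) / 2).im = (Complex.cosh (2 * w)).im / 2 := by
    rw [show (Complex.cosh (2 * w) - 1) / 2 = ((1 / 2 : ℝ) : ℂ) * (Complex.cosh (2 * w) - 1) by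
      push_cast; ring, Complex.im_ofReal_mul]
    simp
    ring
  rw [h3, h2]

theorem S_zero_real (c : ℤ → ℝ) : S c 0 = ((S c 0).re : ℂ) := by
  apply Complex.ext
  · simp
  · rw [S_real_real 0 rfl]
    simp

theorem AA_sq_im (hη : 0 < η) {s : ℂ} (hs : |s.re| < η) :
    (AA η s ^ 2).im = (S (cO η) 0).re ^ 2 / 8
      * (Real.sinh (4 * (LL η s).re) * Real.sin (4 * (LL η s).im)) := by
  have h1 := jac_AC hη hs
  have h2 := CC_eq hη hs
  have h3 : AA η s ^ 2 = S (cA η) 0 ^ 2 + S (cC η) s ^ 2 := by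
    unfold AA
    linear_combination h1
  rw [h3, h2, Complex.add_im, S_zero_real (cA η), S_zero_real (cO η), mul_pow]
  have e1 : ((((S (cA η) 0).re : ℂ)) ^ 2).im = 0 := by
    rw [← Complex.ofReal_pow, Complex.ofReal_im]
  have e2 : (((S (cO η) 0).re : ℂ) / 2) ^ 2 = (((S (cO η) 0).re ^ 2 / 4 : ℝ) : ℂ) := by
    push_cast
    ring
  rw [e1, e2, Complex.im_ofReal_mul, sq_sinh]
  have e3 : 2 * (2 * LL η s).re = 4 * (LL η s).re := by simp; ring
  have e4 : 2 * (2 * LL η s).im = 4 * (LL η s).im := by simp; ring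
  rw [e3, e4]
  simp only [Complex.ofReal_re]
  ring

theorem sq_im (w : ℂ) : (w ^ 2).im = 2 * (w.re * w.im) := by
  rw [sq, Complex.mul_im]
  ring

/-- `Im AA ≥ 0` on the quarter rectangle -/
theorem AA_im_nonneg_half (hη : 0 < η) {s : ℂ} (h0 : 0 ≤ s.re) (h1 : s.re < η) (hi0 : 0 ≤ s.im)
    (hi1 : s.im ≤ Real.pi / 2) : 0 ≤ (AA η s).im := by
  have hpi := Real.pi_pos
  have habs : |s.re| < η := abs_lt.2 ⟨by linarith, h1⟩
  rcases hi1.lt_or_eq with h | h
  · have h2 : 0 < (AA η s).re := AA_re_pos hη habs (abs_lt.2 ⟨by linarith, h⟩)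
    have h3 := AA_sq_im hη habs
    rw [sq_im] at h3
    have h4 : 0 ≤ (LL η s).re := re_L_nonneg hη h0 h1 (abs_le.2 ⟨by linarith, by linarith⟩)
    have h5 : 0 ≤ (LL η s).im := im_L_nonneg hη habs hi0 (by linarith)
    have h6 : (LL η s).im ≤ Real.pi / 4 := im_L_le hη habs hi0 (by linarith)
    have h7 : 0 ≤ Real.sinh (4 * (LL η s).re) := Real.sinh_nonneg_iff.2 (by linarith)
    have h8 : 0 ≤ Real.sin (4 * (LL η s).im) :=
      Real.sin_nonneg_of_nonneg_of_le_pi (by linarith) (by linarith)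
    have h9 : 0 ≤ (AA η s).re * (AA η s).im := by
      have : 0 ≤ (S (cO η) 0).re ^ 2 / 8
        * (Real.sinh (4 * (LL η s).re) * Real.sin (4 * (LL η s).im)) := by positivity
      linarith
    exact nonneg_of_mul_nonneg_right h9 h2
  · rcases h0.lt_or_eq with h2 | h2
    · have h3 := AA_line_pos hη h2 h1
      have e : ((s.re : ℂ) + ((Real.pi / 2 : ℝ) : ℂ) * I) = s := by
        apply Complex.ext <;> simp [h]
      rw [e] at h3
      exact h3.le
    · have h3 : (AA η s).im = 0 := S_real_imag (cA_neg η) s h2.symm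
      rw [h3]

/-- `Im AA ≥ 0` on the rectangle -/
theorem AA_im_nonneg (hη : 0 < η) {s : ℂ} (h0 : 0 ≤ s.re) (h1 : s.re < η) (hi0 : 0 ≤ s.im)
    (hi1 : s.im ≤ Real.pi) : 0 ≤ (AA η s).im := by
  rcases le_total s.im (Real.pi / 2) with h | h
  · exact AA_im_nonneg_half hη h0 h1 hi0 h
  · have h2 := AA_im_nonneg_half hη (s := starRingEnd ℂ s + Real.pi * I) (by simpa using h0)
      (by simpa using h1) (by simp; linarith) (by simp; linarith)
    rw [AA_add_pi, AA_conj] at h2
    simpa using h2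

/-! ## `Im TT ≥ 0` -/

theorem TT_im_small (hη : 0 < η) : ∃ C : ℝ, 0 ≤ C ∧ ∀ s : ℂ, 0 ≤ s.re → s.re ≤ η → 0 ≤ s.im →
    s.im ≤ Real.pi → |(TT η s).im| ≤ C * s.re := by
  have hpi := Real.pi_pos
  set K : Set ℂ := Icc 0 η ×ℂ Icc 0 Real.pi with hK
  have hKc : IsCompact K := isCompact_Icc.reProdIm isCompact_Icc
  have hKm : ∀ s : ℂ, s ∈ K ↔ (0 ≤ s.re ∧ s.re ≤ η) ∧ (0 ≤ s.im ∧ s.im ≤ Real.pi) := by
    intro s
    rw [hK, Complex.mem_reProdIm]
    rfl
  have hKx : Convex ℝ K := by
    have h : K = Complex.reLm ⁻¹' (Icc 0 η) ∩ Complex.imLm ⁻¹' (Icc 0 Real.pi) := rfl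
    rw [h]
    exact ((convex_Icc _ _).linear_preimage Complex.reLm).inter
      ((convex_Icc _ _).linear_preimage Complex.imLm)
  have hre : ∀ s ∈ K, |s.re| < 2 * η := by
    intro s hs
    rw [hKm] at hs
    rw [abs_lt]
    constructor <;> linarith [hs.1.1, hs.1.2]
  have hd : Dec (3 / 2 * η) (fun k => (k : ℝ) * cT η k) := (dec_cT hη).mul_k (by linarith)
  have hcont : ContinuousOn (S (fun k => (k : ℝ) * cT η k)) K := by
    intro s hs
    refine (hd.continuousAt ?_).continuousWithinAt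
    rw [hKm] at hs
    rw [abs_lt]
    constructor <;> linarith [hs.1.1, hs.1.2]
  obtain ⟨C, hC⟩ := hKc.exists_bound_of_continuousOn hcont
  refine ⟨max C 0, le_max_right _ _, ?_⟩
  intro s h0 h1 h2 h3
  have hs : s ∈ K := (hKm s).2 ⟨⟨h0, h1⟩, ⟨h2, h3⟩⟩
  have hs0 : (s.im : ℂ) * I ∈ K := by
    rw [hKm]
    simp
    exact ⟨hη.le, h2, h3⟩
  have h4 := hKx.norm_image_sub_le_of_norm_hasDerivWithin_le
    (f := TT η) (f' := S (fun k => (k : ℝ) * cT η k))
    (fun w hw => (TT_deriv hη (hre w hw)).hasDerivWithinAt) hC hs0 hs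
  have h5 : (TT η ((s.im : ℂ) * I)).im = 0 := TT_im_of_re_zero (by simp)
  have h6 : s - (s.im : ℂ) * I = (s.re : ℂ) := by
    apply Complex.ext <;> simp
  rw [h6, Complex.norm_real, Real.norm_eq_abs, abs_of_nonneg h0] at h4
  have h7 : |(TT η s).im| ≤ ‖TT η s - TT η ((s.im : ℂ) * I)‖ := by
    have := Complex.abs_im_le_norm (TT η s - TT η ((s.im : ℂ) * I))
    rwa [Complex.sub_im, h5, sub_zero] at this
  calc _ ≤ _ := h7
    _ ≤ C * s.re := h4
    _ ≤ _ := mul_le_mul_of_nonneg_right (le_max_left _ _) h0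

theorem TT_im_nonneg (hη : 0 < η) {s : ℂ} (h0 : 0 ≤ s.re) (h1 : s.re < 2 * η) (hi0 : 0 ≤ s.im)
    (hi1 : s.im ≤ Real.pi) : 0 ≤ (TT η s).im := by
  have hpi := Real.pi_pos
  obtain ⟨C, hC0, hC⟩ := TT_im_small hη
  have key : ∀ τ : ℝ, 0 < τ → τ < η → τ ≤ 2 * η - s.re → -(C * τ) ≤ (TT η s).im := by
    intro τ hτ hτη hτs
    have := im_le_of_frontier (f := fun s => -TT η s) (a := 0) (b := 2 * η - τ) (c := 0)
      (d := Real.pi) (M := C * τ) (by linarith) hpi ?_ ?_ ?_ (s := s) h0 (by linarith) hi0 hi1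
    · rw [Complex.neg_im] at this
      linarith
    · intro w hw0 hw1 _ _
      exact (TT_diff hη (abs_lt.2 ⟨by linarith, by linarith⟩)).neg
    · intro w hw hw0 hw1
      rw [Complex.neg_im]
      rcases hw with hw | hw
      · rw [TT_im_of_re_zero hw]
        simp
        positivity
      · -- the right side
        have e1 := TT_add hη (s := w - η) (by
          simp [hw]
          rw [abs_lt]
          constructor <;> linarith)
        have e2 : w - (η : ℂ) + η = w := by ring
        rw [e2] at e1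
        have e3 := congrArg Complex.im e1
        rw [Complex.add_im] at e3
        have e4 : ((2 : ℂ) * AA η (w - η)).im = 2 * (AA η (w - η)).im := by simp
        have e5 : 0 ≤ (AA η (w - η)).im := AA_im_nonneg hη (by simp [hw]; linarith)
          (by simp [hw]; linarith) (by simpa using hw0) (by simpa using hw1)
        have e6 : TT η (w - η - η) = TT η (starRingEnd ℂ (2 * η - starRingEnd ℂ w) * (-1)) := by
          congr 1
          apply Complex.ext
          · simp
            ring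
          · simp
        have e7 : (TT η (w - η - η)).im = -(TT η (2 * η - starRingEnd ℂ w)).im := by
          rw [e6, mul_neg_one, TT_neg, TT_conj, Complex.conj_im]
        have e8 := hC (2 * η - starRingEnd ℂ w) (by simp [hw]; linarith) (by simp [hw]; linarith)
          (by simpa using hw0) (by simpa using hw1)
        have e9 : (2 * (η : ℂ) - starRingEnd ℂ w).re = τ := by simp [hw]
        rw [e9] at e8
        have e10 := abs_le.1 e8
        rw [e4, e7] at e3
        linarith [e10.1]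
    · intro w hw _ _
      rw [Complex.neg_im]
      rcases hw with hw | hw
      · rw [TT_im_of_im_zero hw]
        simp
        positivity
      · rw [TT_im_of_im_pi hw]
        simp
        positivity
  by_contra hneg
  push Not at hneg
  obtain ⟨τ, hτ1, hτ2⟩ := exists_between
    (show (0 : ℝ) < min (min η (2 * η - s.re)) (-(TT η s).im / (C + 1)) by
      apply lt_min (lt_min hη (by linarith))
      apply div_pos (by linarith) (by linarith))
  have h2 := hτ2.trans_le (min_le_left _ _)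
  have h3 := key τ hτ1 (h2.trans_le (min_le_left _ _)) (h2.trans_le (min_le_right _ _)).le
  have h4 := hτ2.trans_le (min_le_right _ _)
  rw [lt_div_iff₀ (by linarith)] at h4
  nlinarith

end Pool.Agent.Lib.MP_0430e4_lc.YA
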