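import Pool.Agent.Lib.MP_0430e4_lc.YA.A1

/-!
# Angular monotonicity, part 2: strict positivity of `Im TT` and lower bounds
-/

set_option autoImplicit false

namespace Pool.Agent.Lib.MP_0430e4_lc.YA

open Complex LPLOW Filter Topology Set YG
open Exact (sech)

variable {η : ℝ}

/-- the derivative of `TT` -/
noncomputable def TD (η : ℝ) (s : ℂ) : ℂ := S (fun k => (k : ℝ) * cT η k) s

theorem TD_pos (hη : 0 < η) : 0 < (TD η (η : ℂ)).re := by
  have hd : Dec (3 / 2 * η) (fun k => (k : ℝ) * cT η k) := (dec_cT hη).mul_k (by linarith)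
  have hs1 : Summable (fun k : ℤ => (((k : ℝ) * cT η k : ℝ) : ℂ) * Complex.exp (k * (η : ℂ))) :=
    hd.summable (s := (η : ℂ)) (by simp; rw [abs_of_pos hη]; linarith)
  have hr : ∀ k : ℤ, (((k : ℝ) * cT η k : ℝ) : ℂ) * Complex.exp (k * (η : ℂ))
      = (((k : ℝ) * cT η k * Real.exp (k * η) : ℝ) : ℂ) := by
    intro k
    push_cast
    rfl
  have hs2 : Summable (fun k : ℤ => (k : ℝ) * cT η k * Real.exp (k * η)) := by
    have := hs1.congr (fun k => hr k)
    exact Complex.summable_ofReal.1 this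
  have h1 : (TD η (η : ℂ)).re = ∑' k : ℤ, (k : ℝ) * cT η k * Real.exp (k * η) := by
    unfold TD S
    simp only [hr]
    rw [← Complex.ofReal_tsum, Complex.ofReal_re]
  have hs3 : Summable (fun k : ℤ => ((-k : ℤ) : ℝ) * cT η (-k) * Real.exp ((-k : ℤ) * η)) :=
    (Equiv.neg ℤ).summable_iff.2 hs2
  have h2 : ∑' k : ℤ, ((-k : ℤ) : ℝ) * cT η (-k) * Real.exp ((-k : ℤ) * η)
      = ∑' k : ℤ, (k : ℝ) * cT η k * Real.exp (k * η) :=
    (Equiv.neg ℤ).tsum_eq (fun k : ℤ => (k : ℝ) * cT η k * Real.exp (k * η))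
  have h3 : 2 * (TD η (η : ℂ)).re = ∑' k : ℤ, cT η k * (2 * (k * Real.sinh (k * η))) := by
    rw [two_mul, h1]
    conv_lhs => rw [← h2]
    rw [h2]
    conv_lhs =>
      arg 2
      rw [← h2]
    rw [← hs2.tsum_add hs3]
    congr 1
    funext k
    rw [cT_neg, Real.sinh_eq]
    push_cast
    ring_nf
  have h4 : Summable (fun k : ℤ => cT η k * (2 * (k * Real.sinh (k * η)))) := by
    refine (hs2.add hs3).congr (fun k => ?_)
    rw [cT_neg, Real.sinh_eq]
    push_cast
    ring_nf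
  have h5 : ∀ k : ℤ, 0 ≤ (k : ℝ) * Real.sinh (k * η) := by
    intro k
    rcases le_total 0 (k : ℝ) with h | h
    · exact mul_nonneg h (Real.sinh_nonneg_iff.2 (mul_nonneg h hη.le))
    · exact mul_nonneg_of_nonpos_of_nonpos h
        (Real.sinh_nonpos_iff.2 (mul_nonpos_of_nonpos_of_nonneg h hη.le))
  have h6 : 0 < ∑' k : ℤ, cT η k * (2 * (k * Real.sinh (k * η))) := by
    refine h4.tsum_pos (fun k => ?_) 1 ?_
    · have := h5 k
      have := cT_nonneg η k
      positivity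
    · unfold cT
      rw [if_pos (by decide)]
      have := sech_pos (((1 : ℤ) : ℝ) * η)
      have h7 : 0 < Real.sinh (((1 : ℤ) : ℝ) * η) := Real.sinh_pos_iff.2 (by push_cast; linarith)
      push_cast at *
      positivity
  linarith

/-- derivative of `Im TT` along a vertical line -/
theorem TT_im_hasDeriv (hη : 0 < η) {x : ℝ} (hx : |x| < 2 * η) (y : ℝ) :
    HasDerivAt (fun y : ℝ => (TT η ((x : ℂ) + (y : ℝ) * I)).im)
      (TD η ((x : ℂ) + (y : ℝ) * I)).re y := by
  have h1 := TT_deriv hη (s := (x : ℂ) + (y : ℝ) * I) (by simpa using hx)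
  have h2 : HasDerivAt (fun t : ℝ => (x : ℂ) + (t : ℝ) * I) I y := by
    have := ((Complex.ofRealCLM.hasDerivAt (x := y)).mul_const I).const_add (x : ℂ)
    simpa using this
  have h3 := h1.scomp y h2
  have h4 := Complex.imCLM.hasFDerivAt.comp_hasDerivAt y h3
  refine h4.congr_deriv ?_
  unfold TD
  simp

/-- strict positivity -/
theorem TT_im_pos (hη : 0 < η) {s : ℂ} (h0 : 0 < s.re) (h1 : s.re < 2 * η) (hi0 : 0 < s.im)
    (hi1 : s.im < Real.pi) : 0 < (TT η s).im := by
  have hpi := Real.pi_pos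
  rcases (TT_im_nonneg hη h0.le h1 hi0.le hi1.le).lt_or_eq with h | h
  · exact h
  exfalso
  set U : Set ℂ := Ioo 0 (2 * η) ×ℂ Ioo 0 Real.pi with hU
  have hmem : ∀ t : ℂ, t ∈ U ↔ (0 < t.re ∧ t.re < 2 * η) ∧ (0 < t.im ∧ t.im < Real.pi) := by
    intro t
    rw [hU, Complex.mem_reProdIm]
    rfl
  have hUo : IsOpen U := isOpen_Ioo.reProdIm isOpen_Ioo
  have hUc : IsPreconnected U := (convex_rect _ _ _ _).isPreconnected
  have habs : ∀ t ∈ U, |t.re| < 2 * η := by
    intro t ht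
    rw [hmem] at ht
    exact abs_lt.2 ⟨by linarith [ht.1.1], ht.1.2⟩
  have hd : DifferentiableOn ℂ (fun t => Complex.exp (I * TT η t)) U := by
    intro t ht
    exact ((TT_diff hη (habs t ht)).const_mul I).cexp.differentiableWithinAt
  have hnorm : ∀ t : ℂ, ‖Complex.exp (I * TT η t)‖ = Real.exp (-(TT η t).im) := by
    intro t
    rw [Complex.norm_exp]
    simp
  have hmax : IsMaxOn (norm ∘ fun t => Complex.exp (I * TT η t)) U s := by
    intro t ht
    simp only [Function.comp_apply, Set.mem_ofPred_eq, hnorm]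
    apply Real.exp_le_exp.2
    rw [← h]
    rw [hmem] at ht
    have := TT_im_nonneg hη ht.1.1.le ht.1.2 ht.2.1.le ht.2.2.le
    linarith
  have hcn := Complex.eqOn_of_isPreconnected_of_isMaxOn_norm hUc hUo hd
    ((hmem s).2 ⟨⟨h0, h1⟩, ⟨hi0, hi1⟩⟩) hmax
  have hzero : ∀ t ∈ U, (TT η t).im = 0 := by
    intro t ht
    have e1 := congrArg norm (hcn ht)
    simp only [Function.const_apply] at e1
    rw [hnorm, hnorm, ← h] at e1
    have := Real.exp_injective e1
    linarith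
  -- derivative at `η`
  have hD := TT_im_hasDeriv hη (x := η) (by rw [abs_of_pos hη]; linarith) 0
  have e0 : ((η : ℂ) + ((0 : ℝ) : ℂ) * I) = (η : ℂ) := by simp
  rw [e0] at hD
  rw [hasDerivAt_iff_tendsto_slope] at hD
  have h6 : Tendsto (slope (fun y : ℝ => (TT η ((η : ℂ) + (y : ℝ) * I)).im) 0)
      (𝓝[>] 0) (𝓝 (TD η (η : ℂ)).re) :=
    hD.mono_left (nhdsWithin_mono _ (fun t ht => (ne_of_gt ht)))
  have h7 : (TD η (η : ℂ)).re ≤ 0 := by
    refine le_of_tendsto h6 ?_
    filter_upwards [Ioo_mem_nhdsGT hpi] with t ht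
    rw [slope_def_field, e0, hzero _ ((hmem _).2 (by simp; exact ⟨⟨hη, by linarith⟩, ht.1, ht.2⟩)),
      TT_im_of_im_zero (by simp)]
    simp
  linarith [TD_pos hη]

/-- the boundary bound on `Re s = η` -/
theorem TT_edge (hη : 0 < η) : ∃ c : ℝ, 0 < c ∧ ∀ y : ℝ, 0 ≤ y → y ≤ Real.pi →
    c * Real.sin y ≤ (TT η ((η : ℂ) + (y : ℝ) * I)).im := by
  have hpi := Real.pi_pos
  have habs : |η| < 2 * η := by rw [abs_of_pos hη]; linarith
  set h : ℝ → ℝ := fun y : ℝ => (TT η ((η : ℂ) + (y : ℝ) * I)).im with hh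
  have e0 : ((η : ℂ) + ((0 : ℝ) : ℂ) * I) = (η : ℂ) := by simp
  have hD := TT_im_hasDeriv hη habs 0
  rw [e0] at hD
  set D := (TD η (η : ℂ)).re with hDd
  have hDpos : 0 < D := TD_pos hη
  have hcont : Continuous h := by
    rw [continuous_iff_continuousAt]
    intro y
    exact (TT_im_hasDeriv hη habs y).continuousAt
  have hz : h 0 = 0 := by
    simp only [hh]
    rw [e0]
    exact TT_im_of_im_zero (by simp)
  -- near zero
  rw [hasDerivAt_iff_tendsto_slope] at hD
  have h6 : Tendsto (slope h 0) (𝓝[>] 0) (𝓝 D) :=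
    hD.mono_left (nhdsWithin_mono _ (fun t ht => (ne_of_gt ht)))
  have h7 : ∀ᶠ y in 𝓝[>] (0 : ℝ), D / 2 < slope h 0 y :=
    h6.eventually (lt_mem_nhds (by linarith))
  obtain ⟨δ, hδ0, hδ⟩ := (mem_nhdsGT_iff_exists_Ioo_subset).1 h7
  have hδ0' : 0 < δ := hδ0
  set d := min (δ / 2) (Real.pi / 2) with hd
  have hd0 : 0 < d := lt_min (by linarith) (by linarith)
  have hd1 : d < δ := (min_le_left _ _).trans_lt (by linarith)
  have hd2 : d ≤ Real.pi / 2 := min_le_right _ _
  have hnear : ∀ y : ℝ, 0 ≤ y → y ≤ d → D / 2 * Real.sin y ≤ h y := by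
    intro y h0 h1
    rcases h0.lt_or_eq with h2 | h2
    · have h3 : D / 2 < slope h 0 y := hδ ⟨h2, h1.trans_lt hd1⟩
      rw [slope_def_field, hz, sub_zero, sub_zero, lt_div_iff₀ h2] at h3
      have h4 : Real.sin y ≤ y := Real.sin_le h0
      nlinarith
    · rw [← h2, hz]
      simp
  -- away from zero
  have hposh : ∀ y ∈ Icc d (Real.pi / 2), 0 < h y := by
    intro y hy
    exact TT_im_pos hη (by simpa using hη) (by simp; linarith) (by simp; linarith [hy.1])
      (by simp; linarith [hy.2])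
  obtain ⟨y0, hy0, hmin⟩ := isCompact_Icc.exists_isMinOn (nonempty_Icc.2 hd2) hcont.continuousOn
  have hm := hposh y0 hy0
  refine ⟨min (D / 2) (h y0), lt_min (by linarith) hm, ?_⟩
  have half : ∀ y : ℝ, 0 ≤ y → y ≤ Real.pi / 2 → min (D / 2) (h y0) * Real.sin y ≤ h y := by
    intro y h0 h1
    have hs0 : 0 ≤ Real.sin y := Real.sin_nonneg_of_nonneg_of_le_pi h0 (by linarith)
    rcases le_total y d with h2 | h2
    · exact (mul_le_mul_of_nonneg_right (min_le_left _ _) hs0).trans (hnear y h0 h2)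
    · have h3 : h y0 ≤ h y := hmin ⟨h2, h1⟩
      calc _ ≤ h y0 * Real.sin y := mul_le_mul_of_nonneg_right (min_le_right _ _) hs0
        _ ≤ h y0 * 1 := mul_le_mul_of_nonneg_left (Real.sin_le_one y) hm.le
        _ ≤ h y := by linarith
  intro y h0 h1
  rcases le_total y (Real.pi / 2) with h2 | h2
  · exact half y h0 h2
  · have h3 := half (Real.pi - y) (by linarith) (by linarith)
    rw [Real.sin_pi_sub] at h3
    have h4 : h (Real.pi - y) = h y := by
      simp only [hh]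
      have e : (η : ℂ) + ((Real.pi - y : ℝ) : ℂ) * I
          = starRingEnd ℂ ((η : ℂ) + (y : ℝ) * I) + Real.pi * I := by
        apply Complex.ext
        · simp
        · simp
          ring
      rw [e, TT_refl]
      simp
    rwa [h4] at h3

theorem cosh_im (s : ℂ) : (Complex.cosh s).im = Real.sinh s.re * Real.sin s.im := by
  have e : s = (s.re : ℂ) + (s.im : ℂ) * I := (Complex.re_add_im s).symm
  conv_lhs => rw [e]
  rw [Complex.cosh_add, Complex.cosh_mul_I, Complex.sinh_mul_I, ← Complex.ofReal_cosh,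
    ← Complex.ofReal_sinh, ← Complex.ofReal_cos, ← Complex.ofReal_sin]
  simp only [Complex.add_im, Complex.mul_re, Complex.mul_im, Complex.ofReal_re,
    Complex.ofReal_im, Complex.I_re, Complex.I_im]
  ring

/-- the quantitative lower bound -/
theorem TT_lower (hη : 0 < η) : ∃ c : ℝ, 0 < c ∧ ∀ s : ℂ, 0 ≤ s.re → s.re ≤ η → 0 ≤ s.im →
    s.im ≤ Real.pi → c * (Real.sinh s.re * Real.sin s.im) ≤ (TT η s).im := by
  have hpi := Real.pi_pos
  obtain ⟨c, hc0, hc⟩ := TT_edge hη
  have hsh : 0 < Real.sinh η := Real.sinh_pos_iff.2 hη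
  refine ⟨c / Real.sinh η, by positivity, ?_⟩
  intro s h0 h1 h2 h3
  have := im_le_of_frontier (f := fun s => ((c / Real.sinh η : ℝ) : ℂ) * Complex.cosh s - TT η s)
    (a := 0) (b := η) (c := 0) (d := Real.pi) (M := 0) hη hpi ?_ ?_ ?_ (s := s) h0 h1 h2 h3
  · rw [Complex.sub_im, Complex.im_ofReal_mul, cosh_im] at this
    linarith
  · intro w hw0 hw1 _ _
    exact ((Complex.differentiable_cosh w).const_mul _).sub
      (TT_diff hη (abs_lt.2 ⟨by linarith, by linarith⟩))
  · intro w hw hw0 hw1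
    rw [Complex.sub_im, Complex.im_ofReal_mul, cosh_im]
    rcases hw with hw | hw
    · rw [hw, TT_im_of_re_zero hw]
      simp
    · have h4 := hc w.im hw0 hw1
      have e : ((η : ℂ) + ((w.im : ℝ) : ℂ) * I) = w := by
        apply Complex.ext <;> simp [hw]
      rw [e] at h4
      rw [hw]
      have : c / Real.sinh η * (Real.sinh η * Real.sin w.im) = c * Real.sin w.im := by
        field_simp
      linarith
  · intro w hw _ _
    rw [Complex.sub_im, Complex.im_ofReal_mul, cosh_im]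
    rcases hw with hw | hw
    · rw [TT_im_of_im_zero hw, hw]
      simp
    · rw [TT_im_of_im_pi hw, hw]
      simp

/-- `Im Z² = 0` on the lines where `Z` is real or imaginary -/
theorem Zsq_im_left {s : ℂ} (h : s.re = 0) : (Z η s ^ 2).im = 0 := by
  rw [sq_im, Z_re_zero h]
  ring

theorem Zsq_im_top {s : ℂ} (h : s.im = Real.pi / 2) : (Z η s ^ 2).im = 0 := by
  rw [sq_im, Z_re_line h]
  ring

theorem Z_im_real {s : ℂ} (h : s.im = 0) : (Z η s).im = 0 := by
  have h1 := Z_conj (η := η) s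
  have h2 : starRingEnd ℂ s = s := by
    apply Complex.ext <;> simp [h]
  rw [h2] at h1
  have h3 := congrArg Complex.im h1
  rw [Complex.conj_im] at h3
  linarith

theorem Zsq_im_bottom {s : ℂ} (h : s.im = 0) : (Z η s ^ 2).im = 0 := by
  rw [sq_im, Z_im_real h]
  ring

theorem Zsq_edge (hη : 0 < η) : ∃ K : ℝ, 0 < K ∧ ∀ y : ℝ, 0 ≤ y → y ≤ Real.pi / 2 →
    (Z η ((η : ℂ) + (y : ℝ) * I) ^ 2).im ≤ K * Real.sin y := by
  have hpi := Real.pi_pos
  -- Lipschitz at 0
  have hd : DifferentiableAt ℝ (fun y : ℝ => (Z η ((η : ℂ) + (y : ℝ) * I) ^ 2).im) 0 := by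
    have h1 : DifferentiableAt ℂ (fun w => Z η w ^ 2) ((η : ℂ) + ((0 : ℝ) : ℂ) * I) :=
      (Z_diff hη (by simp [abs_of_pos hη])).pow 2
    have h2 : HasDerivAt (fun t : ℝ => (η : ℂ) + (t : ℝ) * I) I 0 := by
      have := ((Complex.ofRealCLM.hasDerivAt (x := (0 : ℝ))).mul_const I).const_add (η : ℂ)
      simpa using this
    have h3 := h1.hasDerivAt.scomp (0 : ℝ) h2
    have h4 := Complex.imCLM.hasFDerivAt.comp_hasDerivAt (0 : ℝ) h3
    exact h4.differentiableAt
  set g : ℝ → ℝ := fun y : ℝ => (Z η ((η : ℂ) + (y : ℝ) * I) ^ 2).im with hg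
  have hz : g 0 = 0 := by
    simp only [hg]
    exact Zsq_im_bottom (by simp)
  have h5 := hd.hasDerivAt
  set D := deriv g 0 with hD
  rw [hasDerivAt_iff_tendsto_slope] at h5
  have h6 : Tendsto (slope g 0) (𝓝[>] 0) (𝓝 D) :=
    h5.mono_left (nhdsWithin_mono _ (fun t ht => (ne_of_gt ht)))
  have h7 : ∀ᶠ y in 𝓝[>] (0 : ℝ), slope g 0 y < |D| + 1 :=
    h6.eventually (gt_mem_nhds (by linarith [le_abs_self D]))
  obtain ⟨δ, hδ0, hδ⟩ := (mem_nhdsGT_iff_exists_Ioo_subset).1 h7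
  have hδ0' : 0 < δ := hδ0
  have hle1 : ∀ y : ℝ, g y ≤ 1 := by
    intro y
    have h8 : ‖Z η ((η : ℂ) + (y : ℝ) * I)‖ = 1 := Z_norm hη (by simp)
    have h9 := Complex.abs_im_le_norm (Z η ((η : ℂ) + (y : ℝ) * I) ^ 2)
    rw [norm_pow, h8, one_pow] at h9
    exact (abs_le.1 h9).2
  have hK : ∀ y : ℝ, 0 ≤ y → y ≤ Real.pi / 2 → g y ≤ max (|D| + 1) (1 / δ) * y := by
    intro y h0 h1
    rcases h0.lt_or_eq with h2 | h2
    · rcases lt_or_ge y δ with h3 | h3
      · have h4 : slope g 0 y < |D| + 1 := hδ ⟨h2, h3⟩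
        rw [slope_def_field, hz, sub_zero, sub_zero, div_lt_iff₀ h2] at h4
        exact h4.le.trans (mul_le_mul_of_nonneg_right (le_max_left _ _) h0)
      · calc g y ≤ 1 := hle1 y
          _ ≤ (1 / δ) * y := by
              rw [div_mul_eq_mul_div, one_mul, le_div_iff₀ hδ0']
              linarith
          _ ≤ _ := mul_le_mul_of_nonneg_right (le_max_right _ _) h0
    · rw [← h2, hz]
      simp
  set M := max (|D| + 1) (1 / δ) with hM
  have hM0 : 0 < M := lt_of_lt_of_le (by positivity) (le_max_left (|D| + 1) (1 / δ))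
  refine ⟨M * (Real.pi / 2), by positivity, ?_⟩
  intro y h0 h1
  have h8 := hK y h0 h1
  have h9 := Real.mul_le_sin h0 h1
  calc g y ≤ M * y := h8
    _ = M * (Real.pi / 2) * (2 / Real.pi * y) := by
        field_simp
    _ ≤ _ := mul_le_mul_of_nonneg_left h9 (by positivity)

/-- `Im TT ≥ c Im Z²` on the quarter rectangle -/
theorem TT_ge_Zsq (hη : 0 < η) : ∃ c : ℝ, 0 < c ∧ ∀ s : ℂ, 0 ≤ s.re → s.re ≤ η → 0 ≤ s.im →
    s.im ≤ Real.pi / 2 → c * (Z η s ^ 2).im ≤ (TT η s).im := by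
  have hpi := Real.pi_pos
  obtain ⟨c, hc0, hc⟩ := TT_edge hη
  obtain ⟨K, hK0, hK⟩ := Zsq_edge hη
  refine ⟨c / K, by positivity, ?_⟩
  intro s h0 h1 h2 h3
  have := im_le_of_frontier (f := fun s => ((c / K : ℝ) : ℂ) * Z η s ^ 2 - TT η s)
    (a := 0) (b := η) (c := 0) (d := Real.pi / 2) (M := 0) hη (by linarith) ?_ ?_ ?_
    (s := s) h0 h1 h2 h3
  · rw [Complex.sub_im, Complex.im_ofReal_mul] at this
    linarith
  · intro w hw0 hw1 _ _
    exact (((Z_diff hη (by rw [abs_of_nonneg hw0]; exact hw1)).pow 2).const_mul _).sub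
      (TT_diff hη (abs_lt.2 ⟨by linarith, by linarith⟩))
  · intro w hw hw0 hw1
    rw [Complex.sub_im, Complex.im_ofReal_mul]
    rcases hw with hw | hw
    · rw [Zsq_im_left hw, TT_im_of_re_zero hw]
      simp
    · have h4 := hc w.im hw0 (by linarith)
      have h5 := hK w.im hw0 hw1
      have e : ((η : ℂ) + ((w.im : ℝ) : ℂ) * I) = w := by
        apply Complex.ext <;> simp [hw]
      rw [e] at h4 h5
      have h6 : c / K * (Z η w ^ 2).im ≤ c / K * (K * Real.sin w.im) :=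
        mul_le_mul_of_nonneg_left h5 (by positivity)
      have h7 : c / K * (K * Real.sin w.im) = c * Real.sin w.im := by
        field_simp
      linarith
  · intro w hw hw0 hw1
    rw [Complex.sub_im, Complex.im_ofReal_mul]
    rcases hw with hw | hw
    · rw [Zsq_im_bottom hw, TT_im_of_im_zero hw]
      simp
    · rw [Zsq_im_top hw]
      have := TT_im_nonneg hη hw0 (by linarith) (by linarith : 0 ≤ w.im) (by linarith)
      linarith

end Pool.Agent.Lib.MP_0430e4_lc.YA
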