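import Pool.Agent.Lib.MP_0430e4_lc.YA.A2
import Pool.Agent.Lib.MP_0430e4_lc.AC.YF1

/-!
# Angular monotonicity, part 3: along the level curves of `Re LL`

For `s` in the open rectangle `0 < Re s < η`, `0 ≤ Im s < π/2`, the function
`Re (UU s) + c Re (Z s)` decreases along the curve `Re (LL s) = const` as `Im (LL s)` increases.
-/

set_option autoImplicit false

namespace Pool.Agent.Lib.MP_0430e4_lc.YA

open Complex LPLOW Filter Topology Set YG
open Exact (sech)

variable {η : ℝ}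

/-- the half strip -/
def Hs : Set ℂ := {l : ℂ | 0 < l.re ∧ |l.im| < Real.pi / 4}

/-- the Möbius map -/
noncomputable def mz (u : ℂ) : ℂ := (1 - u) / (1 + u)

theorem mz_re {u : ℂ} (h : 1 + u ≠ 0) : (mz u).re = (1 - Complex.normSq u) / Complex.normSq (1 + u) := by
  unfold mz
  rw [Complex.div_re]
  have h1 : Complex.normSq (1 + u) ≠ 0 := (Complex.normSq_pos.2 h).ne'
  field_simp
  rw [Complex.normSq_apply]
  simp
  ring

theorem mz_norm {u : ℂ} (h : 1 + u ≠ 0) :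
    1 - Complex.normSq (mz u) = 4 * u.re / Complex.normSq (1 + u) := by
  unfold mz
  rw [Complex.normSq_div]
  have h1 : Complex.normSq (1 + u) ≠ 0 := (Complex.normSq_pos.2 h).ne'
  field_simp
  rw [Complex.normSq_apply, Complex.normSq_apply]
  simp
  ring

section
variable (hη : 0 < η)
include hη

/-- `Z = (1 - u)/(1 + u)` with `u = exp (-2 LL)` -/
theorem Z_eq_mz {s : ℂ} (h : |s.re| < η) :
    1 + Complex.exp (-2 * LL η s) ≠ 0 ∧ Z η s = mz (Complex.exp (-2 * LL η s)) := by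
  have h1 := one_sub_Z hη h
  have h3 : (1 + Complex.exp (-2 * LL η s)) * (1 + Z η s) = 2 := by
    linear_combination -h1
  have h4 : 1 + Complex.exp (-2 * LL η s) ≠ 0 := by
    intro h0
    rw [h0, zero_mul] at h3
    norm_num at h3
  refine ⟨h4, ?_⟩
  unfold mz
  rw [eq_div_iff h4]
  linear_combination -h1

theorem LL_mem {s : ℂ} (hs : s ∈ Rp η) : LL η s ∈ Hs := by
  rw [mem_Rp] at hs
  exact ⟨LL_re_pos hη hs.1.1 hs.1.2 hs.2,
    LL_im_lt hη (abs_lt.2 ⟨by linarith [hs.1.1], hs.1.2⟩) hs.2⟩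

/-- `LL` is onto the half strip -/
theorem LL_surj {l : ℂ} (hl : l ∈ Hs) : ∃ s ∈ Rp η, LL η s = l := by
  have hpi := Real.pi_pos
  obtain ⟨hl0, hl1⟩ := hl
  have hl1' := abs_lt.1 hl1
  set u := Complex.exp (-2 * l) with hu
  have hun : ‖u‖ < 1 := by
    rw [hu, Complex.norm_exp, Real.exp_lt_one_iff]
    simp
    exact hl0
  have hur : 0 < u.re := by
    rw [hu, Complex.exp_re]
    apply mul_pos (Real.exp_pos _)
    apply Real.cos_pos_of_mem_Ioo
    simp
    constructor <;> linarith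
  have hne : 1 + u ≠ 0 := by
    intro h0
    have := congrArg Complex.re h0
    simp at this
    linarith
  have hns : 0 < Complex.normSq (1 + u) := Complex.normSq_pos.2 hne
  have hz : mz u ∈ Dp := by
    constructor
    · have h1 := mz_norm hne
      have h2 : 0 < 4 * u.re / Complex.normSq (1 + u) := by positivity
      rw [← h1, Complex.normSq_eq_norm_sq] at h2
      nlinarith [norm_nonneg (mz u)]
    · rw [mz_re hne, Complex.normSq_eq_norm_sq]
      apply div_pos _ hns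
      nlinarith [norm_nonneg u]
  obtain ⟨s, hs, hsz⟩ := surj_Dp hη hz
  refine ⟨s, hs, ?_⟩
  have hs' := mem_Rp.1 hs
  have habs : |s.re| < η := abs_lt.2 ⟨by linarith [hs'.1.1], hs'.1.2⟩
  obtain ⟨h4, h5⟩ := Z_eq_mz hη habs
  have h6 : Complex.exp (-2 * LL η s) = Complex.exp (-2 * l) := by
    rw [hsz] at h5
    unfold mz at h5
    rw [div_eq_div_iff hne h4] at h5
    have h7 : (Complex.exp (-2 * LL η s) - u) * 2 = 0 := by linear_combination h5
    have h8 : Complex.exp (-2 * LL η s) - u = 0 := by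
      rcases mul_eq_zero.1 h7 with h | h
      · exact h
      · norm_num at h
    linear_combination h8
  obtain ⟨n, hn⟩ := Complex.exp_eq_exp_iff_exists_int.1 h6
  have h9 := congrArg Complex.im hn
  simp only [Complex.mul_im, Complex.neg_re, Complex.re_ofNat, Complex.neg_im, Complex.im_ofNat,
    neg_zero, zero_mul, add_zero, Complex.add_im, Complex.intCast_re, Complex.intCast_im,
    Complex.mul_re, Complex.ofReal_re, Complex.ofReal_im, sub_zero, Complex.I_re, mul_zero,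
    Complex.I_im, mul_one, sub_self] at h9
  have h10 := abs_lt.1 (LL_mem hη hs).2
  have hn0 : n = 0 := by
    have e1 : (n : ℝ) * (2 * Real.pi) < 2 * Real.pi := by linarith
    have e2 : -(2 * Real.pi) < (n : ℝ) * (2 * Real.pi) := by linarith
    have e3 : (n : ℝ) < 1 := by
      by_contra hcon
      push Not at hcon
      nlinarith
    have e4 : (-1 : ℝ) < n := by
      by_contra hcon
      push Not at hcon
      nlinarith
    have e5 : n < 1 := by exact_mod_cast e3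
    have e6 : -1 < n := by exact_mod_cast e4
    omega
  rw [hn0] at hn
  have h11 : (-2 : ℂ) ≠ 0 := by norm_num
  simp only [Int.cast_zero, zero_mul, add_zero] at hn
  exact mul_left_cancel₀ h11 hn

theorem LL_inj' {a b : ℂ} (ha : a ∈ Rp η) (hb : b ∈ Rp η) (h : LL η a = LL η b) : a = b := by
  rw [mem_Rp] at ha hb
  exact LL_inj hη ha.1.1.le ha.1.2 ha.2.le hb.1.1.le hb.1.2 hb.2.le h

omit hη in
theorem Hs_open : IsOpen Hs :=
  (isOpen_lt continuous_const Complex.continuous_re).inter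
    (isOpen_lt (continuous_abs.comp Complex.continuous_im) continuous_const)

omit hη in
theorem Rp_open : IsOpen (Rp η) := isOpen_Ioo.reProdIm isOpen_Ioo

/-- a section of `LL` -/
theorem exists_section : ∃ σ : ℂ → ℂ, ∀ l ∈ Hs, σ l ∈ Rp η ∧ LL η (σ l) = l := by
  have h : ∀ l : ℂ, ∃ s : ℂ, l ∈ Hs → s ∈ Rp η ∧ LL η s = l := by
    intro l
    by_cases hl : l ∈ Hs
    · obtain ⟨s, h1, h2⟩ := LL_surj hη hl
      exact ⟨s, fun _ => ⟨h1, h2⟩⟩
    · exact ⟨0, fun h => absurd h hl⟩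
  choose σ hσ using h
  exact ⟨σ, hσ⟩

theorem section_deriv {σ : ℂ → ℂ} (hσ : ∀ l ∈ Hs, σ l ∈ Rp η ∧ LL η (σ l) = l) {l : ℂ}
    (hl : l ∈ Hs) : HasDerivAt σ (AA η (σ l))⁻¹ l := by
  obtain ⟨h1, h2⟩ := hσ l hl
  have h1' := mem_Rp.1 h1
  have habs : |(σ l).re| < η := abs_lt.2 ⟨by linarith [h1'.1.1], h1'.1.2⟩
  have hne : AA η (σ l) ≠ 0 := by
    intro h
    have := AA_re_pos hη habs h1'.2
    rw [h] at this
    simp at this
  have hstr : HasStrictDerivAt (LL η) (AA η (σ l)) (σ l) := by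
    have h3 : AnalyticAt ℂ (LL η) (σ l) := by
      have : DifferentiableOn ℂ (LL η) {w : ℂ | |w.re| < η} :=
        fun w hw => (LL_deriv hη hw).differentiableAt.differentiableWithinAt
      exact this.analyticOnNhd isOpen_str (σ l) habs
    have h4 := h3.hasStrictDerivAt
    rwa [(LL_deriv hη habs).deriv] at h4
  have h5 := hstr.to_localInverse hne
  rw [h2] at h5
  refine h5.hasDerivAt.congr_of_eventuallyEq ?_
  have hfd := hstr.hasStrictFDerivAt_equiv hne
  have hc : ContinuousAt (hstr.localInverse (LL η) (AA η (σ l)) (σ l) hne) l := h5.hasDerivAt.continuousAt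
  have hv : hstr.localInverse (LL η) (AA η (σ l)) (σ l) hne l = σ l := by
    have := hfd.localInverse_apply_image
    rw [h2] at this
    exact this
  have e1 : ∀ᶠ w in 𝓝 l, hstr.localInverse (LL η) (AA η (σ l)) (σ l) hne w ∈ Rp η := by
    apply hc.eventually_mem
    rw [hv]
    exact Rp_open.mem_nhds h1
  have e2 : ∀ᶠ w in 𝓝 l, LL η (hstr.localInverse (LL η) (AA η (σ l)) (σ l) hne w) = w := by
    have := hfd.eventually_right_inverse
    rw [h2] at this
    exact this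
  have e3 : ∀ᶠ w in 𝓝 l, w ∈ Hs := Hs_open.mem_nhds hl
  filter_upwards [e1, e2, e3] with w w1 w2 w3
  obtain ⟨w4, w5⟩ := hσ w w3
  exact LL_inj' hη w4 w1 (by rw [w5, w2])

/-- the sign of `Im` -/
theorem im_nonneg_of_LL {s : ℂ} (hs : s ∈ Rp η) (h : 0 < (LL η s).im) : 0 ≤ s.im := by
  by_contra hcon
  push Not at hcon
  have hs' := mem_Rp.1 hs
  have hpi := Real.pi_pos
  have h1 : 0 ≤ (LL η (starRingEnd ℂ s)).im := im_L_nonneg hη
    (by simpa using abs_lt.2 ⟨by linarith [hs'.1.1], hs'.1.2⟩) (by simp; exact hcon.le)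
    (by simp; linarith [(abs_lt.1 hs'.2).1])
  rw [LL_conj, Complex.conj_im] at h1
  linarith

/-- derivative of `Z` in terms of `LL` along the section -/
theorem Z_section_deriv {σ : ℂ → ℂ} (hσ : ∀ l ∈ Hs, σ l ∈ Rp η ∧ LL η (σ l) = l) {l : ℂ}
    (hl : l ∈ Hs) : HasDerivAt (fun l => Z η (σ l)) (1 - Z η (σ l) ^ 2) l := by
  obtain ⟨h1, h2⟩ := hσ l hl
  have h1' := mem_Rp.1 h1
  have habs : |(σ l).re| < η := abs_lt.2 ⟨by linarith [h1'.1.1], h1'.1.2⟩
  have hne : AA η (σ l) ≠ 0 := by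
    intro h
    have := AA_re_pos hη habs h1'.2
    rw [h] at this
    simp at this
  have h3 := (Z_deriv hη habs).comp l (section_deriv hη hσ hl)
  refine h3.congr_deriv ?_
  field_simp

theorem UU_section_deriv {σ : ℂ → ℂ} (hσ : ∀ l ∈ Hs, σ l ∈ Rp η ∧ LL η (σ l) = l) {l : ℂ}
    (hl : l ∈ Hs) : HasDerivAt (fun l => UU η (AC.YF.ks η) (σ l)) (TT η (σ l) / AA η 0) l := by
  obtain ⟨h1, h2⟩ := hσ l hl
  have h1' := mem_Rp.1 h1
  have habs : |(σ l).re| < η := abs_lt.2 ⟨by linarith [h1'.1.1], h1'.1.2⟩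
  have hne : AA η (σ l) ≠ 0 := by
    intro h
    have := AA_re_pos hη habs h1'.2
    rw [h] at this
    simp at this
  have h3 := (AC.YF.UU_deriv hη habs).comp l (section_deriv hη hσ hl)
  refine h3.congr_deriv ?_
  unfold TT
  field_simp

/-- **Angular monotonicity in the strip.** -/
theorem ang_strip : ∃ c : ℝ, 0 < c ∧ ∀ a ∈ Rp η, ∀ b ∈ Rp η, (LL η a).re = (LL η b).re →
    0 ≤ (LL η a).im → (LL η a).im ≤ (LL η b).im →
    (UU η (AC.YF.ks η) b).re + c * (Z η b).re ≤ (UU η (AC.YF.ks η) a).re + c * (Z η a).re := by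
  have hpi := Real.pi_pos
  obtain ⟨c, hc0, hc⟩ := TT_ge_Zsq hη
  have hA := AC.YF.AA0_pos hη
  refine ⟨c / (AA η 0).re, by positivity, ?_⟩
  intro a ha b hb hab h0 h1
  obtain ⟨σ, hσ⟩ := exists_section hη
  set ρ := (LL η a).re with hρ
  have hρ0 : 0 < ρ := (LL_mem hη ha).1
  set θ0 := (LL η a).im with hθ0
  set θ1 := (LL η b).im with hθ1
  have hθ1' : θ1 < Real.pi / 4 := (abs_lt.1 (LL_mem hη hb).2).2
  have hmem : ∀ θ : ℝ, 0 ≤ θ → θ ≤ θ1 → ((ρ : ℂ) + (θ : ℝ) * I) ∈ Hs := by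
    intro θ h2 h3
    refine ⟨by simpa using hρ0, ?_⟩
    simp
    rw [abs_of_nonneg h2]
    linarith
  have hpath : ∀ θ : ℝ, HasDerivAt (fun t : ℝ => (ρ : ℂ) + (t : ℝ) * I) I θ := by
    intro θ
    have := ((Complex.ofRealCLM.hasDerivAt (x := θ)).mul_const I).const_add (ρ : ℂ)
    simpa using this
  have hder : ∀ θ : ℝ, 0 ≤ θ → θ ≤ θ1 → HasDerivAt
      (fun θ : ℝ => (UU η (AC.YF.ks η) (σ ((ρ : ℂ) + (θ : ℝ) * I))).re
        + c / (AA η 0).re * (Z η (σ ((ρ : ℂ) + (θ : ℝ) * I))).re)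
      (-((TT η (σ ((ρ : ℂ) + (θ : ℝ) * I))).im / (AA η 0).re)
        + c / (AA η 0).re * (Z η (σ ((ρ : ℂ) + (θ : ℝ) * I)) ^ 2).im) θ := by
    intro θ h2 h3
    have e1 := (UU_section_deriv hη hσ (hmem θ h2 h3)).scomp θ (hpath θ)
    have e2 := (Z_section_deriv hη hσ (hmem θ h2 h3)).scomp θ (hpath θ)
    have e3 := Complex.reCLM.hasFDerivAt.comp_hasDerivAt θ e1
    have e4 := Complex.reCLM.hasFDerivAt.comp_hasDerivAt θ e2
    refine (e3.add (e4.const_mul (c / (AA η 0).re))).congr_deriv ?_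
    rw [AC.YF.AA0_eq hη]
    simp only [Complex.reCLM_apply, smul_eq_mul, Complex.mul_re, Complex.I_re, Complex.I_im,
      zero_mul, one_mul, zero_sub, Complex.sub_im, Complex.one_im, Complex.div_ofReal_im,
      Complex.ofReal_re]
    ring
  have hanti : AntitoneOn (fun θ : ℝ => (UU η (AC.YF.ks η) (σ ((ρ : ℂ) + (θ : ℝ) * I))).re
        + c / (AA η 0).re * (Z η (σ ((ρ : ℂ) + (θ : ℝ) * I))).re) (Icc 0 θ1) := by
    apply antitoneOn_of_deriv_nonpos (convex_Icc 0 θ1)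
    · intro θ hθ
      exact (hder θ hθ.1 hθ.2).continuousAt.continuousWithinAt
    · intro θ hθ
      rw [interior_Icc] at hθ
      exact (hder θ hθ.1.le hθ.2.le).differentiableAt.differentiableWithinAt
    · intro θ hθ
      rw [interior_Icc] at hθ
      rw [(hder θ hθ.1.le hθ.2.le).deriv]
      obtain ⟨w1, w2⟩ := hσ _ (hmem θ hθ.1.le hθ.2.le)
      have w1' := mem_Rp.1 w1
      have w3 : 0 ≤ (σ ((ρ : ℂ) + (θ : ℝ) * I)).im := by
        apply im_nonneg_of_LL hη w1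
        rw [w2]
        simpa using hθ.1
      have w4 := hc _ w1'.1.1.le w1'.1.2.le w3 (abs_lt.1 w1'.2).2.le
      have w5 : c / (AA η 0).re * (Z η (σ ((ρ : ℂ) + (θ : ℝ) * I)) ^ 2).im
          = c * (Z η (σ ((ρ : ℂ) + (θ : ℝ) * I)) ^ 2).im / (AA η 0).re := by ring
      rw [w5]
      have w6 := div_le_div_of_nonneg_right w4 hA.le
      linarith
  have h4 := hanti (⟨h0, h1⟩ : θ0 ∈ Icc 0 θ1) (⟨h0.trans h1, le_rfl⟩ : θ1 ∈ Icc 0 θ1) h1
  have ea : σ ((ρ : ℂ) + (θ0 : ℝ) * I) = a := by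
    obtain ⟨w1, w2⟩ := hσ _ (hmem θ0 h0 h1)
    apply LL_inj' hη w1 ha
    rw [w2, hρ, hθ0]
    exact Complex.re_add_im _
  have eb : σ ((ρ : ℂ) + (θ1 : ℝ) * I) = b := by
    obtain ⟨w1, w2⟩ := hσ _ (hmem θ1 (h0.trans h1) le_rfl)
    apply LL_inj' hη w1 hb
    rw [w2, hab, hθ1]
    exact Complex.re_add_im _
  simp only [ea, eb] at h4
  exact h4

end

end Pool.Agent.Lib.MP_0430e4_lc.YA
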