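import Pool.Agent.Lib.MP_0430e4_lc.YA.A3
import Pool.Agent.Lib.MP_0430e4_lc.AC.HX3
import Pool.Agent.Lib.MP_0430e4_lc.AC.YT7

/-!
# Angular monotonicity, part 4: final form in the variable `u = (1 - z)/(1 + z)` (branch I)

`ang`: for `z = Z s` in the closed right half disc, `u = mz z`, `0 < |u| < 1`:
`log |1 + u| + Re GG s ≤ hxU (UI t) |u| - c (1 - |u|) (|u| - Re u)`.
-/

set_option autoImplicit false

namespace Pool.Agent.Lib.MP_0430e4_lc.YA

open Complex LPLOW Filter Topology Set YG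
open Exact (sech)

variable {η : ℝ}

theorem mz_mz {u : ℂ} (h : 1 + u ≠ 0) : mz (mz u) = u := by
  unfold mz
  have h1 : 1 + (1 - u) / (1 + u) = 2 / (1 + u) := by
    field_simp
    ring
  have h2 : 1 - (1 - u) / (1 + u) = 2 * u / (1 + u) := by
    field_simp
    ring
  rw [h1, h2]
  field_simp

/-- the gap between `Re Z` and its value on the positive axis -/
theorem mz_gap {u : ℂ} (hu : ‖u‖ ≤ 1) (hne : 1 + u ≠ 0) :
    (1 - ‖u‖) * (‖u‖ - u.re) / 8 ≤ (mz u).re - (1 - ‖u‖) / (1 + ‖u‖) := by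
  have h0 := norm_nonneg u
  have hns : 0 < Complex.normSq (1 + u) := Complex.normSq_pos.2 hne
  have h1 : Complex.normSq u = ‖u‖ ^ 2 := Complex.normSq_eq_norm_sq u
  have h2 : Complex.normSq (1 + u) = 1 + 2 * u.re + ‖u‖ ^ 2 := by
    rw [← h1, Complex.normSq_apply, Complex.normSq_apply]
    simp
    ring
  have h3 : u.re ≤ ‖u‖ := Complex.re_le_norm u
  rw [mz_re hne, h1]
  set r := ‖u‖ with hr
  have h4 : Complex.normSq (1 + u) ≤ 4 := by rw [h2]; nlinarith
  have h5 : (1 + r) ^ 2 ≤ 4 := by nlinarith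
  have h6 : (1 - r ^ 2) / Complex.normSq (1 + u) - (1 - r) / (1 + r)
      = (1 - r) * (1 + r) * (2 * (r - u.re)) / (Complex.normSq (1 + u) * (1 + r) ^ 2) := by
    have h7 : (1 : ℝ) + r ≠ 0 := by linarith
    have h8 := hns.ne'
    rw [div_sub_div _ _ h8 h7, div_eq_div_iff (mul_ne_zero h8 h7)
      (mul_ne_zero h8 (pow_ne_zero 2 h7)), h2]
    ring
  rw [h6, le_div_iff₀ (by positivity)]
  have h9 : 0 ≤ (1 - r) * (r - u.re) := mul_nonneg (by linarith) (by linarith)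
  have h10 : Complex.normSq (1 + u) * (1 + r) ^ 2 ≤ 16 := by
    calc _ ≤ 4 * (1 + r) ^ 2 := mul_le_mul_of_nonneg_right h4 (by positivity)
      _ ≤ 4 * 4 := mul_le_mul_of_nonneg_left h5 (by norm_num)
      _ = 16 := by norm_num
  calc (1 - r) * (r - u.re) / 8 * (Complex.normSq (1 + u) * (1 + r) ^ 2)
      ≤ (1 - r) * (r - u.re) / 8 * 16 := mul_le_mul_of_nonneg_left h10 (by positivity)
    _ = ((1 - r) * (r - u.re)) * 2 := by ring
    _ ≤ ((1 - r) * (r - u.re)) * (2 * (1 + r)) := mul_le_mul_of_nonneg_left (by linarith) h9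
    _ = _ := by ring

theorem UU_conj (κ : ℝ) (s : ℂ) : UU η κ (starRingEnd ℂ s) = starRingEnd ℂ (UU η κ s) := by
  unfold UU
  rw [S_conj, map_add, map_mul, Complex.conj_ofReal]

theorem cs_eq {t : ℝ} (ht : 0 < t) : AC.YF.cs (t / 2) = Exact.cval t := by
  have hη : 0 < t / 2 := by linarith
  have h1 := cval_eq_f0 ht
  rw [Lower.r_eq hη] at h1
  unfold AC.YF.cs AC.YF.ks
  rw [h1]

section
variable (hη : 0 < η)
include hη

/-- `Re GG = Re UU + (1/2) log |1 - Z²|` -/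
theorem GG_re_eq {s : ℂ} (h0 : 0 ≤ s.re) (h1 : s.re < η) :
    (Lower.GG (Real.exp (-η) ^ 2) (AC.YF.cs η) s).re
      = (UU η (AC.YF.ks η) s).re + Real.log ‖1 - Z η s ^ 2‖ / 2 := by
  rw [← AC.YF.exp_GG_UU hη h0 h1, Complex.norm_exp, Real.log_exp]
  simp

/-- `log |1 + u| + Re GG = Re UU + (1/2) log (4 |u|)`, `u = exp (-2 LL)` -/
theorem w_eq {s : ℂ} (h0 : 0 ≤ s.re) (h1 : s.re < η) :
    Real.log ‖1 + mz (Z η s)‖ + (Lower.GG (Real.exp (-η) ^ 2) (AC.YF.cs η) s).re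
      = (UU η (AC.YF.ks η) s).re + Real.log (4 * ‖mz (Z η s)‖) / 2 := by
  have habs : |s.re| < η := abs_lt.2 ⟨by linarith, h1⟩
  obtain ⟨h4, h5⟩ := Z_eq_mz hη habs
  set u := Complex.exp (-2 * LL η s) with hu
  have hune : u ≠ 0 := Complex.exp_ne_zero _
  rw [GG_re_eq hη h0 h1, h5, mz_mz h4]
  have e1 : 1 - mz u ^ 2 = 4 * u / (1 + u) ^ 2 := by
    unfold mz
    field_simp
    ring
  rw [e1, norm_div, norm_mul, norm_pow]
  have e2 : ‖(4 : ℂ)‖ = 4 := by simp
  rw [e2]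
  have e3 : 0 < ‖1 + u‖ := norm_pos_iff.2 h4
  have e4 : 0 < ‖u‖ := norm_pos_iff.2 hune
  rw [Real.log_div (by positivity) (by positivity), Real.log_pow]
  push_cast
  ring

end

/-- **Angular monotonicity**, open right half disc. -/
theorem ang_open {t : ℝ} (ht : 0 < t) : ∃ c : ℝ, 0 < c ∧ ∀ s ∈ Rp (t / 2),
    0 < ‖mz (Z (t / 2) s)‖ ∧ ‖mz (Z (t / 2) s)‖ < 1 ∧
    Real.log ‖1 + mz (Z (t / 2) s)‖ + (Lower.GG (AC.nm (t / 2)) (Exact.cval t) s).re
      ≤ AC.hxU (AC.UI t) ‖mz (Z (t / 2) s)‖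
        - c * ((1 - ‖mz (Z (t / 2) s)‖) * (‖mz (Z (t / 2) s)‖ - (mz (Z (t / 2) s)).re)) := by
  have hη : 0 < t / 2 := by linarith
  obtain ⟨c, hc0, hc⟩ := ang_strip hη
  refine ⟨c / 8, by positivity, ?_⟩
  -- first for `0 ≤ Im LL`
  have key : ∀ s ∈ Rp (t / 2), 0 ≤ (LL (t / 2) s).im →
      0 < ‖mz (Z (t / 2) s)‖ ∧ ‖mz (Z (t / 2) s)‖ < 1 ∧
    Real.log ‖1 + mz (Z (t / 2) s)‖ + (Lower.GG (AC.nm (t / 2)) (Exact.cval t) s).re
      ≤ AC.hxU (AC.UI t) ‖mz (Z (t / 2) s)‖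
        - c / 8 * ((1 - ‖mz (Z (t / 2) s)‖) * (‖mz (Z (t / 2) s)‖ - (mz (Z (t / 2) s)).re)) := by
    intro s hs him
    have hs' := mem_Rp.1 hs
    have habs : |s.re| < t / 2 := abs_lt.2 ⟨by linarith [hs'.1.1], hs'.1.2⟩
    obtain ⟨h4, h5⟩ := Z_eq_mz hη habs
    set u := Complex.exp (-2 * LL (t / 2) s) with hu
    have hmu : mz (Z (t / 2) s) = u := by rw [h5, mz_mz h4]
    have hLre : 0 < (LL (t / 2) s).re := (LL_mem hη hs).1
    have hun : ‖u‖ = Real.exp (-2 * (LL (t / 2) s).re) := by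
      rw [hu, Complex.norm_exp]
      simp
    have hu0 : 0 < ‖u‖ := by rw [hun]; exact Real.exp_pos _
    have hu1 : ‖u‖ < 1 := by
      rw [hun, Real.exp_lt_one_iff]
      linarith
    rw [hmu]
    refine ⟨hu0, hu1, ?_⟩
    -- the real point
    set x := AC.hxy ‖u‖ with hx
    have hx0 : 0 < x := AC.hxy_pos hu0 hu1
    have hx1 : x < 1 := AC.hxy_lt hu0
    obtain ⟨b0, b1, b2⟩ := (AC.upI hη).spec hx0 hx1
    set b := AC.sx (t / 2) (AC.Zr (t / 2)) x with hb
    have hbm : ((b : ℝ) : ℂ) ∈ Rp (t / 2) := by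
      rw [mem_Rp]
      simp
      exact ⟨⟨b0, b1⟩, Real.pi_pos⟩
    have hxt : x = Real.tanh (LL (t / 2) s).re := by
      rw [hx, Real.tanh_eq, hun]
      unfold AC.hxy
      have e1 : Real.exp (-2 * (LL (t / 2) s).re)
          = Real.exp (-(LL (t / 2) s).re) * Real.exp (-(LL (t / 2) s).re) := by
        rw [← Real.exp_add]
        congr 1
        ring
      have e2 : Real.exp (LL (t / 2) s).re * Real.exp (-(LL (t / 2) s).re) = 1 := by
        rw [← Real.exp_add]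
        simp
      have e3 := Real.exp_pos (LL (t / 2) s).re
      have e4 := Real.exp_pos (-(LL (t / 2) s).re)
      rw [e1, div_eq_div_iff (by positivity) (by positivity)]
      generalize Real.exp (LL (t / 2) s).re = A at *
      generalize Real.exp (-(LL (t / 2) s).re) = B at *
      linear_combination (-2 * B) * e2
    have hLb : (LL (t / 2) (b : ℂ)).re = (LL (t / 2) s).re := by
      have e1 : AC.Zr (t / 2) b = Real.tanh (AC.Lr (t / 2) b) := rfl
      rw [e1, hxt] at b2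
      exact AC.tanh_strictMono.injective b2
    have hLbi : (LL (t / 2) (b : ℂ)).im = 0 := S_real_real (b : ℂ) (by simp)
    have h6 := hc _ hbm s hs hLb (by rw [hLbi]) (by rw [hLbi]; exact him)
    -- the value at the real point
    have hZb : Z (t / 2) (b : ℂ) = (x : ℂ) := by
      have := AC.zz_real hη b0.le b1
      rw [b2] at this
      exact this
    have hw1 := w_eq hη hs'.1.1.le hs'.1.2
    have hw2 := w_eq hη (s := ((b : ℝ) : ℂ)) (by simpa using b0.le) (by simpa using b1)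
    rw [cs_eq ht] at hw1 hw2
    rw [hmu] at hw1
    have hmb : mz (Z (t / 2) (b : ℂ)) = ((‖u‖ : ℝ) : ℂ) := by
      rw [hZb, hx]
      unfold AC.hxy
      have e1 : (((1 - ‖u‖) / (1 + ‖u‖) : ℝ) : ℂ) = mz ((‖u‖ : ℝ) : ℂ) := by
        unfold mz
        push_cast
        ring
      rw [e1]
      apply mz_mz
      intro h
      have := congrArg Complex.re h
      simp at this
      linarith
    rw [hmb] at hw2
    have e7 : ‖(1 : ℂ) + ((‖u‖ : ℝ) : ℂ)‖ = 1 + ‖u‖ := by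
      rw [show (1 : ℂ) + ((‖u‖ : ℝ) : ℂ) = ((1 + ‖u‖ : ℝ) : ℂ) by push_cast; ring,
        Complex.norm_real, Real.norm_eq_abs, abs_of_pos (by linarith)]
    have e8 : ‖((‖u‖ : ℝ) : ℂ)‖ = ‖u‖ := by
      rw [Complex.norm_real, Real.norm_eq_abs, abs_of_pos hu0]
    rw [e7, e8] at hw2
    have hU : AC.hxU (AC.UI t) ‖u‖ = Real.log (1 + ‖u‖)
        + (Lower.GG (Real.exp (-(t / 2)) ^ 2) (Exact.cval t) (b : ℂ)).re := rfl
    have hgap := mz_gap hu1.le h4
    have hZs : (Z (t / 2) s).re = (mz u).re := by rw [h5]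
    have hZb' : (Z (t / 2) (b : ℂ)).re = (1 - ‖u‖) / (1 + ‖u‖) := by
      rw [hZb, Complex.ofReal_re, hx]
      rfl
    rw [hU]
    have hnm : AC.nm (t / 2) = Real.exp (-(t / 2)) ^ 2 := rfl
    rw [hnm, hw1, hw2]
    rw [hZs, hZb'] at h6
    have h7 := mul_le_mul_of_nonneg_left hgap hc0.le
    linarith
  intro s hs
  rcases le_total 0 (LL (t / 2) s).im with h | h
  · exact key s hs h
  · have hs' := mem_Rp.1 hs
    have hcm : starRingEnd ℂ s ∈ Rp (t / 2) := by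
      rw [mem_Rp]
      simp
      exact hs'
    have h1 := key _ hcm (by rw [LL_conj, Complex.conj_im]; linarith)
    have e1 : mz (Z (t / 2) (starRingEnd ℂ s)) = starRingEnd ℂ (mz (Z (t / 2) s)) := by
      rw [Z_conj]
      unfold mz
      simp
    have hw1 := w_eq hη hs'.1.1.le hs'.1.2
    have hw2 := w_eq hη (s := starRingEnd ℂ s) (by simpa using hs'.1.1.le) (by simpa using hs'.1.2)
    rw [cs_eq ht] at hw1 hw2
    have hnm : AC.nm (t / 2) = Real.exp (-(t / 2)) ^ 2 := rfl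
    rw [hnm] at h1 ⊢
    rw [hw2, e1, UU_conj] at h1
    rw [hw1]
    simpa using h1

/-- **Angular monotonicity**, closed right half disc. -/
theorem ang {t : ℝ} (ht : 0 < t) : ∃ c : ℝ, 0 < c ∧ ∀ s : ℂ, 0 ≤ s.re → s.re ≤ t / 2 →
    |s.im| ≤ Real.pi / 2 → 0 < ‖mz (Z (t / 2) s)‖ → ‖mz (Z (t / 2) s)‖ < 1 →
    Real.log ‖1 + mz (Z (t / 2) s)‖ + (Lower.GG (AC.nm (t / 2)) (Exact.cval t) s).re
      ≤ AC.hxU (AC.UI t) ‖mz (Z (t / 2) s)‖
        - c * ((1 - ‖mz (Z (t / 2) s)‖) * (‖mz (Z (t / 2) s)‖ - (mz (Z (t / 2) s)).re)) := by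
  have hη : 0 < t / 2 := by linarith
  have hpi := Real.pi_pos
  obtain ⟨c, hc0, hc⟩ := ang_open ht
  refine ⟨c, hc0, ?_⟩
  intro s h0 h1 h2 hu0 hu1
  have habs : |s.re| ≤ t / 2 := by rw [abs_of_nonneg h0]; exact h1
  have hne : 1 + Z (t / 2) s ≠ 0 := by
    intro h
    unfold mz at hu0
    rw [h, div_zero, norm_zero] at hu0
    exact lt_irrefl _ hu0
  have hZc : ContinuousAt (Z (t / 2)) s := Z_cont hη habs
  have hmc : ContinuousAt (fun w => mz (Z (t / 2) w)) s :=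
    (continuousAt_const.sub hZc).div (continuousAt_const.add hZc) hne
  have hnc : ContinuousAt (fun w => ‖mz (Z (t / 2) w)‖) s := hmc.norm
  have hrc : ContinuousAt (fun w => (mz (Z (t / 2) w)).re) s :=
    Complex.continuous_re.continuousAt.comp hmc
  have hhc : ContinuousAt (fun w => AC.hxU (AC.UI t) ‖mz (Z (t / 2) w)‖) s := by
    have h3 := (AC.hxU_hasDerivAt (AC.potI ht).deriv hu0 hu1).continuousAt
    exact ContinuousAt.comp (f := fun w => ‖mz (Z (t / 2) w)‖) (g := AC.hxU (AC.UI t)) h3 hnc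
  have h1u : 1 + mz (Z (t / 2) s) ≠ 0 := by
    intro h
    have h3 : mz (Z (t / 2) s) = -1 := by linear_combination h
    rw [h3] at hu1
    simp at hu1
  have hlc : ContinuousAt (fun w => Real.log ‖1 + mz (Z (t / 2) w)‖) s :=
    (continuousAt_const.add hmc).norm.log (norm_pos_iff.2 h1u).ne'
  have hGc : ContinuousAt (fun w => (Lower.GG (AC.nm (t / 2)) (Exact.cval t) w).re) s := by
    have h3 := (Lower.GG_diff (AC.nm_pos hη) (AC.nm_lt hη) (Exact.cval t) h0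
      (by rw [AC.eta_nm hη]; exact h1)).continuousAt
    exact Complex.continuous_re.continuousAt.comp h3
  have hF : ContinuousAt (fun w => AC.hxU (AC.UI t) ‖mz (Z (t / 2) w)‖
      - c * ((1 - ‖mz (Z (t / 2) w)‖) * (‖mz (Z (t / 2) w)‖ - (mz (Z (t / 2) w)).re))
      - (Real.log ‖1 + mz (Z (t / 2) w)‖ + (Lower.GG (AC.nm (t / 2)) (Exact.cval t) w).re)) s :=
    (hhc.sub (continuousAt_const.mul ((continuousAt_const.sub hnc).mul (hnc.sub hrc)))).sub
      (hlc.add hGc)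
  have hcl : s ∈ closure (Rp (t / 2)) := by
    unfold Rp
    rw [Complex.closure_reProdIm, closure_Ioo hη.ne, closure_Ioo (by linarith),
      Complex.mem_reProdIm]
    exact ⟨⟨h0, h1⟩, abs_le.1 h2⟩
  have hnb : (𝓝[Rp (t / 2)] s).NeBot := mem_closure_iff_nhdsWithin_neBot.1 hcl
  have h3 := ge_of_tendsto (hF.tendsto.mono_left (nhdsWithin_le_nhds (s := Rp (t / 2))))
    (b := 0) (by
      filter_upwards [self_mem_nhdsWithin] with w hw
      have := (hc w hw).2.2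
      linarith)
  linarith

end Pool.Agent.Lib.MP_0430e4_lc.YA
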