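import Pool.Agent.Lib.MP_0430e4_lc.YA.A4
import Pool.Agent.Lib.MP_0430e4_lc.YG.B3
import Pool.Agent.Lib.MP_0430e4_lc.BY.P.Good

/-!
# Angular monotonicity, part 5: on the disc, with the majorant `UG`
-/

set_option autoImplicit false

namespace Pool.Agent.Lib.MP_0430e4_lc.YA

open Complex LPLOW Filter Topology Set YG
open BY (up)

theorem one_add_ne {u : ℂ} (h : 0 ≤ u.re) : 1 + u ≠ 0 := by
  intro h0
  have := congrArg Complex.re h0
  simp at this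
  linarith

theorem mz_norm_le {u : ℂ} (h : 0 ≤ u.re) : ‖mz u‖ ≤ 1 := by
  have h1 := mz_norm (one_add_ne h)
  have h2 : 0 < Complex.normSq (1 + u) := Complex.normSq_pos.2 (one_add_ne h)
  have h3 : 0 ≤ 4 * u.re / Complex.normSq (1 + u) := by positivity
  rw [← h1, Complex.normSq_eq_norm_sq] at h3
  nlinarith [norm_nonneg (mz u)]

theorem mz_norm_eq {u : ℂ} (h : u.re = 0) : ‖mz u‖ = 1 := by
  have h1 := mz_norm (one_add_ne h.ge)
  rw [h, mul_zero, zero_div, Complex.normSq_eq_norm_sq] at h1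
  nlinarith [norm_nonneg (mz u)]

theorem mz_re_nonneg {u : ℂ} (h : 0 ≤ u.re) (h1 : ‖u‖ ≤ 1) : 0 ≤ (mz u).re := by
  rw [mz_re (one_add_ne h), Complex.normSq_eq_norm_sq]
  apply div_nonneg _ (Complex.normSq_nonneg _)
  nlinarith [norm_nonneg u]

/-- **Angular monotonicity on the disc.** -/
theorem ang_disc {t : ℝ} (ht : 0 < t) : ∃ c : ℝ, 0 < c ∧ ∀ u : ℂ, 0 < ‖u‖ → ‖u‖ < 1 → 0 ≤ u.re →
    Real.log ‖1 + u‖ + UG (t / 2) (Exact.cval t) (mz u)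
      ≤ AC.hxU (AC.UI t) ‖u‖ - c * ((1 - ‖u‖) * (‖u‖ - u.re)) := by
  have hη : 0 < t / 2 := by linarith
  obtain ⟨c, hc0, hc⟩ := ang ht
  refine ⟨c, hc0, ?_⟩
  intro u h0 h1 h2
  obtain ⟨s, hs, hsz⟩ := surj_right hη (mz_norm_le h2) (mz_re_nonneg h2 h1.le)
  have hs' := mem_Rc.1 hs
  have hm : mz (Z (t / 2) s) = u := by rw [hsz, mz_mz (one_add_ne h2)]
  have h3 := hc s hs'.1.1 hs'.1.2 hs'.2 (by rw [hm]; exact h0) (by rw [hm]; exact h1)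
  rw [hm] at h3
  rw [← hsz, UG_Z hη _ hs'.1.1 hs'.1.2]
  exact h3

/-- the outer half: `|u| > 1` -/
theorem ang_disc_inv {t : ℝ} (ht : 0 < t) : ∃ c : ℝ, 0 < c ∧ ∀ u : ℂ, 1 < ‖u‖ → 0 ≤ u.re →
    Real.log ‖1 + u‖ + UG (t / 2) (Exact.cval t) (mz u)
      ≤ Real.log ‖u‖ + AC.hxU (AC.UI t) ‖u‖⁻¹ - c * ((1 - ‖u‖⁻¹) * (‖u‖⁻¹ * (1 - u.re / ‖u‖))) := by
  have hη : 0 < t / 2 := by linarith
  obtain ⟨c, hc0, hc⟩ := ang_disc ht
  refine ⟨c, hc0, ?_⟩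
  intro u h0 h2
  have hu : 0 < ‖u‖ := by linarith
  have hu0 : u ≠ 0 := norm_pos_iff.1 hu
  have e1 : (u⁻¹).re = u.re / ‖u‖ ^ 2 := by
    rw [Complex.inv_re, Complex.normSq_eq_norm_sq]
  have hre : 0 ≤ (u⁻¹).re := by rw [e1]; positivity
  have h3 := hc u⁻¹ (by rw [norm_inv]; positivity) (by rw [norm_inv]; exact inv_lt_one_of_one_lt₀ h0) hre
  have e2 : mz u = -mz u⁻¹ := by
    unfold mz
    have h4 : 1 + u ≠ 0 := one_add_ne h2
    have h5 : 1 + u⁻¹ ≠ 0 := one_add_ne hre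
    rw [← neg_div, div_eq_div_iff h4 h5]
    field_simp
    ring
  have e3 : 1 + u = u * (1 + u⁻¹) := by
    field_simp
    ring
  have h5 : 0 < ‖1 + u⁻¹‖ := norm_pos_iff.2 (one_add_ne hre)
  rw [e2, UG_neg hη _ (mz_norm_le hre), e3, norm_mul, Real.log_mul hu.ne' h5.ne']
  rw [norm_inv, e1] at h3
  have e4 : ‖u‖⁻¹ - u.re / ‖u‖ ^ 2 = ‖u‖⁻¹ * (1 - u.re / ‖u‖) := by
    field_simp
  rw [e4] at h3
  linarith

/-- the value at angle `π/2` -/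
theorem half_le_hxU {t : ℝ} (ht : 0 < t) : ∃ c : ℝ, 0 < c ∧ ∀ r : ℝ, 0 < r → r < 1 →
    Real.log (1 + r ^ 2) / 2 + Exact.cval t ≤ AC.hxU (AC.UI t) r - c * (r * (1 - r)) := by
  have hη : 0 < t / 2 := by linarith
  obtain ⟨c, hc0, hc⟩ := ang_disc ht
  refine ⟨c, hc0, ?_⟩
  intro r h0 h1
  have hn : ‖(r : ℂ) * I‖ = r := by
    rw [norm_mul, Complex.norm_I, mul_one, Complex.norm_real, Real.norm_eq_abs, abs_of_pos h0]
  have hr : ((r : ℂ) * I).re = 0 := by simp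
  have h2 := hc ((r : ℂ) * I) (by rw [hn]; exact h0) (by rw [hn]; exact h1) (by rw [hr])
  rw [UG_rim hη _ (mz_norm_eq hr), hn, hr] at h2
  have e : ‖1 + (r : ℂ) * I‖ = √(1 + r ^ 2) := by
    rw [Complex.norm_def, Complex.normSq_apply]
    simp
    ring_nf
  rw [e, Real.log_sqrt (by positivity)] at h2
  calc _ ≤ _ := h2
    _ = _ := by ring

/-- on the contours `up s φ` -/
theorem up_norm (s φ : ℝ) : ‖up s φ‖ = Real.exp s := by
  unfold up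
  rw [Complex.norm_exp]
  simp

theorem up_re (s φ : ℝ) : (up s φ).re = Real.exp s * Real.cos φ := by
  unfold up
  rw [Complex.exp_re]
  simp

/-- angular monotonicity on `u = e^{-s + iφ}`, `s > 0` -/
theorem ang_up_neg {t : ℝ} (ht : 0 < t) : ∃ c : ℝ, 0 < c ∧ ∀ s φ : ℝ, 0 < s → 0 ≤ Real.cos φ →
    Real.log ‖1 + up (-s) φ‖ + UG (t / 2) (Exact.cval t) (mz (up (-s) φ))
      ≤ AC.hxU (AC.UI t) (Real.exp (-s))
        - c * ((1 - Real.exp (-s)) * (Real.exp (-s) * (1 - Real.cos φ))) := by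
  obtain ⟨c, hc0, hc⟩ := ang_disc ht
  refine ⟨c, hc0, ?_⟩
  intro s φ h0 h1
  have h2 := hc (up (-s) φ) (by rw [up_norm]; exact Real.exp_pos _)
    (by rw [up_norm, Real.exp_lt_one_iff]; linarith)
    (by rw [up_re]; exact mul_nonneg (Real.exp_pos _).le h1)
  rw [up_norm, up_re] at h2
  calc _ ≤ _ := h2
    _ = _ := by ring

/-- angular monotonicity on `u = e^{s + iφ}`, `s > 0` -/
theorem ang_up_pos {t : ℝ} (ht : 0 < t) : ∃ c : ℝ, 0 < c ∧ ∀ s φ : ℝ, 0 < s → 0 ≤ Real.cos φ →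
    Real.log ‖1 + up s φ‖ + UG (t / 2) (Exact.cval t) (mz (up s φ))
      ≤ s + AC.hxU (AC.UI t) (Real.exp (-s))
        - c * ((1 - Real.exp (-s)) * (Real.exp (-s) * (1 - Real.cos φ))) := by
  obtain ⟨c, hc0, hc⟩ := ang_disc_inv ht
  refine ⟨c, hc0, ?_⟩
  intro s φ h0 h1
  have hexp := Real.exp_pos s
  have h2 := hc (up s φ) (by rw [up_norm]; exact Real.one_lt_exp_iff.2 h0)
    (by rw [up_re]; exact mul_nonneg hexp.le h1)
  rw [up_norm, up_re, ← Real.exp_neg, Real.log_exp] at h2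
  have e : Real.exp s * Real.cos φ / Real.exp s = Real.cos φ := by field_simp
  rw [e] at h2
  exact h2

end Pool.Agent.Lib.MP_0430e4_lc.YA
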