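import Pool.Agent.Lib.MP_0430e4_lc.YA.A5
import Pool.Agent.Lib.MP_0430e4_lc.YE.J1

/-!
# Angular monotonicity, part 6: `om` near the slit is Lipschitz
-/

set_option autoImplicit false

namespace Pool.Agent.Lib.MP_0430e4_lc.YA

open Complex LPLOW Filter Topology Set YG
open BY (up)

variable {η : ℝ}

/-- `om (Z w) = |Re w|` -/
theorem om_Z_abs (hη : 0 < η) {w : ℂ} (h : |w.re| ≤ η) : om η (Z η w) = |w.re| := by
  rcases le_or_gt 0 w.re with h0 | h0
  · rw [abs_of_nonneg h0] at h ⊢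
    exact om_Z hη h0 h
  · rw [abs_of_neg h0] at h ⊢
    have e : Z η w = -Z η (-w) := by rw [Z_neg, neg_neg]
    have h1 : 0 ≤ (-w).re := by simp; linarith
    have h2 : (-w).re ≤ η := by simpa using h
    rw [e, om_neg hη (Z_norm_le hη h1 h2), om_Z hη h1 h2]
    simp

/-- the slit -/
theorem om_slit (hη : 0 < η) {y : ℝ} (hy : |y| ≤ YE.tip η) : om η ((y : ℂ) * I) = 0 := by
  have hpi := Real.pi_pos
  have hy' := abs_le.1 hy
  have hcont : ContinuousOn (fun t : ℝ => (Z η (t * I)).im) (Icc (-(Real.pi / 2)) (Real.pi / 2)) :=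
    fun t _ => (YE.Y_deriv hη t).continuousAt.continuousWithinAt
  have hlo : (fun t : ℝ => (Z η (t * I)).im) (-(Real.pi / 2)) = -YE.tip η := by
    show (Z η (((-(Real.pi / 2) : ℝ) : ℂ) * I)).im = -YE.tip η
    have e : (((-(Real.pi / 2) : ℝ) : ℂ) * I) = -(((Real.pi / 2 : ℝ) : ℂ) * I) := by
      push_cast; ring
    rw [e, Z_neg]
    simp [YE.tip]
  have hhi : (fun t : ℝ => (Z η (t * I)).im) (Real.pi / 2) = YE.tip η := rfl
  have h1 : y ∈ Icc ((fun t : ℝ => (Z η (t * I)).im) (-(Real.pi / 2)))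
      ((fun t : ℝ => (Z η (t * I)).im) (Real.pi / 2)) := by
    rw [hlo, hhi]; exact ⟨hy'.1, hy'.2⟩
  obtain ⟨t, _, ht⟩ := intermediate_value_Icc (by linarith) hcont h1
  have e : (y : ℂ) * I = Z η ((t : ℂ) * I) := by
    rw [YE.Z_imag (η := η) t]
    congr 2
    exact ht.symm
  rw [e, om_Z hη (by simp) (by simp [hη.le])]
  simp

/-- `om` is Lipschitz near `Z w0` when `Z' (w0) ≠ 0` -/
theorem om_local (hη : 0 < η) {w0 : ℂ} (h : |w0.re| < η)
    (hd : AA η w0 * (1 - Z η w0 ^ 2) ≠ 0) : ∃ C : ℝ, 0 < C ∧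
    ∀ᶠ p : ℂ × ℂ in 𝓝 (Z η w0, Z η w0), |om η p.1 - om η p.2| ≤ C * ‖p.1 - p.2‖ := by
  have hopen : IsOpen {w : ℂ | |w.re| < η} := isOpen_str
  have han : AnalyticAt ℂ (Z η) w0 := by
    have : DifferentiableOn ℂ (Z η) {w : ℂ | |w.re| < η} :=
      fun w hw => (Z_diff hη (le_of_lt hw)).differentiableWithinAt
    exact this.analyticAt (hopen.mem_nhds h)
  have hs := han.hasStrictDerivAt
  have hd' : deriv (Z η) w0 ≠ 0 := by rw [(Z_deriv hη h).deriv]; exact hd
  set g := hs.localInverse (Z η) (deriv (Z η) w0) w0 hd' with hg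
  have hgs := hs.to_localInverse hd'
  have hri := hs.eventually_right_inverse hd'
  have hg0 : g (Z η w0) = w0 := (hs.eventually_left_inverse hd').self_of_nhds
  have hgc : ContinuousAt g (Z η w0) := hgs.hasDerivAt.continuousAt
  have hmem : ∀ᶠ z in 𝓝 (Z η w0), |(g z).re| < η := by
    have : ∀ᶠ w in 𝓝 (g (Z η w0)), |w.re| < η := by
      rw [hg0]; exact hopen.mem_nhds h
    exact hgc.eventually this
  obtain ⟨C, hC⟩ := hgs.hasStrictFDerivAt.isBigO_sub.bound
  refine ⟨max C 1, by positivity, ?_⟩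
  have h1 : ∀ᶠ p : ℂ × ℂ in 𝓝 (Z η w0, Z η w0), Z η (g p.1) = p.1 ∧ |(g p.1).re| < η :=
    (continuous_fst.tendsto (Z η w0, Z η w0)).eventually (hri.and hmem)
  have h2 : ∀ᶠ p : ℂ × ℂ in 𝓝 (Z η w0, Z η w0), Z η (g p.2) = p.2 ∧ |(g p.2).re| < η :=
    (continuous_snd.tendsto (Z η w0, Z η w0)).eventually (hri.and hmem)
  filter_upwards [h1, h2, hC] with p hp1 hp2 hp3
  have e1 : om η p.1 = |(g p.1).re| := by
    conv_lhs => rw [← hp1.1]
    exact om_Z_abs hη hp1.2.le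
  have e2 : om η p.2 = |(g p.2).re| := by
    conv_lhs => rw [← hp2.1]
    exact om_Z_abs hη hp2.2.le
  rw [e1, e2]
  calc |(|(g p.1).re| - |(g p.2).re|)| ≤ |(g p.1).re - (g p.2).re| := abs_abs_sub_abs_le _ _
    _ = |(g p.1 - g p.2).re| := by simp
    _ ≤ ‖g p.1 - g p.2‖ := Complex.abs_re_le_norm _
    _ ≤ C * ‖p.1 - p.2‖ := hp3
    _ ≤ max C 1 * ‖p.1 - p.2‖ := by
      apply mul_le_mul_of_nonneg_right (le_max_left _ _) (norm_nonneg _)

theorem up_cont : Continuous (fun p : ℝ × ℝ => up p.1 p.2) := by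
  unfold BY.up
  fun_prop

theorem mz_sub {u v : ℂ} (hu : 0 ≤ u.re) (hv : 0 ≤ v.re) : ‖mz u - mz v‖ ≤ 2 * ‖u - v‖ := by
  have h1 := one_add_ne hu
  have h2 := one_add_ne hv
  have e : mz u - mz v = -(2 * (u - v)) / ((1 + u) * (1 + v)) := by
    unfold mz
    field_simp
    ring
  have n1 : 1 ≤ ‖1 + u‖ := by
    calc (1 : ℝ) ≤ (1 + u).re := by simp; exact hu
      _ ≤ ‖1 + u‖ := Complex.re_le_norm _
  have n2 : 1 ≤ ‖1 + v‖ := by
    calc (1 : ℝ) ≤ (1 + v).re := by simp; exact hv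
      _ ≤ ‖1 + v‖ := Complex.re_le_norm _
  rw [e, norm_div, norm_neg, norm_mul, norm_mul, div_le_iff₀ (by positivity)]
  have h3 : 1 ≤ ‖1 + u‖ * ‖1 + v‖ := one_le_mul_of_one_le_of_one_le n1 n2
  have h4 : ‖(2 : ℂ)‖ = 2 := by simp
  rw [h4]
  nlinarith [norm_nonneg (u - v)]

theorem up_sub {s φ : ℝ} (hs : |s| ≤ 1) : ‖up s φ - up 0 φ‖ ≤ 2 * |s| := by
  have e : up s φ - up 0 φ = (((Real.exp s - 1 : ℝ) : ℂ)) * Complex.exp ((φ : ℂ) * I) := by
    unfold BY.up
    rw [Complex.exp_add]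
    push_cast
    rw [zero_add]
    ring
  rw [e, norm_mul, Complex.norm_exp_ofReal_mul_I, mul_one, Complex.norm_real, Real.norm_eq_abs]
  exact Real.abs_exp_sub_one_le hs

/-- the point of the slit under angle `φ` -/
theorem mz_up_zero {φ : ℝ} (h : 0 ≤ Real.cos φ) :
    mz (up 0 φ) = ((-Real.tan (φ / 2) : ℝ) : ℂ) * I := by
  have h1 : 1 + up 0 φ ≠ 0 := one_add_ne (by rw [up_re]; simpa using h)
  have hc : Real.cos (φ / 2) ≠ 0 := by
    intro h0
    have := Real.cos_sq (φ / 2)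
    rw [h0, show 2 * (φ / 2) = φ by ring] at this
    nlinarith
  have hcc : Complex.cos ((φ : ℂ) / 2) ≠ 0 := by
    have : Complex.cos ((φ : ℂ) / 2) = ((Real.cos (φ / 2) : ℝ) : ℂ) := by push_cast; rfl
    rw [this]; exact_mod_cast hc
  have e1 : up 0 φ = Complex.exp ((φ : ℂ) / 2 * I) ^ 2 := by
    unfold BY.up
    rw [← Complex.exp_nat_mul]
    congr 1
    push_cast
    ring
  have e2 : Complex.exp ((φ : ℂ) / 2 * I) * Complex.exp (-((φ : ℂ) / 2) * I) = 1 := by
    rw [← Complex.exp_add]; simp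
  unfold mz
  rw [div_eq_iff h1, e1]
  have e3 : (((-Real.tan (φ / 2) : ℝ)) : ℂ) = -(Complex.sin ((φ : ℂ) / 2) / Complex.cos ((φ : ℂ) / 2)) := by
    push_cast [Real.tan_eq_sin_div_cos]
    ring
  rw [e3]
  have e4 : Complex.exp ((φ : ℂ) / 2 * I) = Complex.cos ((φ : ℂ) / 2) + Complex.sin ((φ : ℂ) / 2) * I :=
    Complex.exp_mul_I _
  have e5 : Complex.sin ((φ : ℂ) / 2) ^ 2 + Complex.cos ((φ : ℂ) / 2) ^ 2 = 1 := Complex.sin_sq_add_cos_sq _
  have e6 : (I : ℂ) ^ 2 = -1 := Complex.I_sq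
  rw [e4]
  set S := Complex.sin ((φ : ℂ) / 2)
  set K := Complex.cos ((φ : ℂ) / 2)
  have e8 : 1 - (K + S * I) ^ 2 = -(2 * S * I) * (K + S * I) := by
    linear_combination (-1 : ℂ) * e5 + S ^ 2 * e6
  have e9 : 1 + (K + S * I) ^ 2 = 2 * K * (K + S * I) := by
    linear_combination (-1 : ℂ) * e5 + S ^ 2 * e6
  rw [e8, e9]
  field_simp

/-- **`om` is `O(|s|)` along the slit, away from its end.** -/
theorem om_lip (hη : 0 < η) {p : ℝ} (hp : p < 2 * Real.arctan (YE.tip η)) :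
    ∃ C : ℝ, 0 < C ∧ ∀ s φ : ℝ, 0 ≤ φ → φ ≤ p → om η (mz (up s φ)) ≤ C * |s| := by
  have hpi := Real.pi_pos
  have htip := YE.tip_lt_one hη
  have htip0 := YE.tip_pos hη
  have hat : Real.arctan (YE.tip η) < Real.pi / 4 := by
    rw [← Real.arctan_one]
    exact Real.arctan_strictMono htip
  have hcos : ∀ φ : ℝ, 0 ≤ φ → φ ≤ p → 0 ≤ Real.cos φ := fun φ h0 h1 =>
    Real.cos_nonneg_of_neg_pi_div_two_le_of_le (by linarith) (by linarith)
  have htan : ∀ φ : ℝ, 0 ≤ φ → φ ≤ p → 0 ≤ Real.tan (φ / 2) ∧ Real.tan (φ / 2) < YE.tip η := by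
    intro φ h0 h1
    refine ⟨Real.tan_nonneg_of_nonneg_of_le_pi_div_two (by linarith) (by linarith), ?_⟩
    calc Real.tan (φ / 2) < Real.tan (Real.arctan (YE.tip η)) :=
          Real.tan_lt_tan_of_nonneg_of_lt_pi_div_two (by linarith) (by linarith) (by linarith)
      _ = YE.tip η := Real.tan_arctan _
  have hre : ∀ s φ : ℝ, 0 ≤ φ → φ ≤ p → 0 ≤ (up s φ).re := fun s φ h0 h1 => by
    rw [up_re]; exact mul_nonneg (Real.exp_pos _).le (hcos φ h0 h1)
  -- locally uniform statement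
  have key : ∃ C τ : ℝ, 0 < C ∧ 0 < τ ∧ ∀ φ ∈ Icc 0 p, ∀ s : ℝ, |s| ≤ τ →
      om η (mz (up s φ)) ≤ C * |s| := by
    refine isCompact_Icc.induction_on (p := fun K : Set ℝ => ∃ C τ : ℝ, 0 < C ∧ 0 < τ ∧ ∀ φ ∈ K,
      ∀ s : ℝ, |s| ≤ τ → om η (mz (up s φ)) ≤ C * |s|) ?_ ?_ ?_ ?_
    · exact ⟨1, 1, one_pos, one_pos, fun φ h => absurd h (by simp)⟩
    · rintro K K' hK ⟨C, τ, h1, h2, h3⟩
      exact ⟨C, τ, h1, h2, fun φ h => h3 φ (hK h)⟩
    · rintro K K' ⟨C, τ, h1, h2, h3⟩ ⟨C', τ', h1', h2', h3'⟩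
      refine ⟨max C C', min τ τ', by positivity, by positivity, ?_⟩
      rintro φ (h | h) s hs
      · exact (h3 φ h s (hs.trans (min_le_left _ _))).trans
          (mul_le_mul_of_nonneg_right (le_max_left _ _) (abs_nonneg _))
      · exact (h3' φ h s (hs.trans (min_le_right _ _))).trans
          (mul_le_mul_of_nonneg_right (le_max_right _ _) (abs_nonneg _))
    · intro φ0 hφ0
      -- the point of the slit
      have hy := htan φ0 hφ0.1 hφ0.2
      have hcont : ContinuousOn (fun t : ℝ => (Z η (t * I)).im) (Icc (-(Real.pi / 2)) (Real.pi / 2)) :=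
        fun t _ => (YE.Y_deriv hη t).continuousAt.continuousWithinAt
      have hlo : (fun t : ℝ => (Z η (t * I)).im) (-(Real.pi / 2)) = -YE.tip η := by
        show (Z η (((-(Real.pi / 2) : ℝ) : ℂ) * I)).im = -YE.tip η
        have e : (((-(Real.pi / 2) : ℝ) : ℂ) * I) = -(((Real.pi / 2 : ℝ) : ℂ) * I) := by
          push_cast; ring
        rw [e, Z_neg]
        simp [YE.tip]
      have hhi : (fun t : ℝ => (Z η (t * I)).im) (Real.pi / 2) = YE.tip η := rfl
      have h1 : -Real.tan (φ0 / 2) ∈ Ioo ((fun t : ℝ => (Z η (t * I)).im) (-(Real.pi / 2)))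
          ((fun t : ℝ => (Z η (t * I)).im) (Real.pi / 2)) := by
        rw [hlo, hhi]; exact ⟨by linarith, by linarith⟩
      obtain ⟨t, ht1, ht2⟩ := intermediate_value_Ioo (by linarith) hcont h1
      have hZ : Z η ((t : ℂ) * I) = mz (up 0 φ0) := by
        rw [mz_up_zero (hcos φ0 hφ0.1 hφ0.2), YE.Z_imag (η := η) t]
        congr 2
      have him : |((t : ℂ) * I).im| < Real.pi / 2 := by
        simp only [mul_im, ofReal_re, I_im, mul_one, ofReal_im, I_re, mul_zero, add_zero]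
        exact abs_lt.2 ⟨ht1.1, ht1.2⟩
      have hre0 : |((t : ℂ) * I).re| < η := by simp [hη]
      have hd : AA η ((t : ℂ) * I) * (1 - Z η ((t : ℂ) * I) ^ 2) ≠ 0 := by
        refine mul_ne_zero (AA_ne hη (by simp) (by simp [hη]) him.le ?_) ?_
        · rintro ⟨_, h⟩; exact him.ne h
        · rw [show (1 : ℂ) - Z η ((t : ℂ) * I) ^ 2
              = (1 - Z η ((t : ℂ) * I)) * (1 + Z η ((t : ℂ) * I)) by ring]
          exact mul_ne_zero (one_sub_Z_ne hη hre0) (one_add_Z_ne hη hre0)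
      obtain ⟨C, hC0, hC⟩ := om_local hη hre0 hd
      rw [hZ] at hC
      -- pull back to `(s, φ)`
      have hre1 : 1 + up 0 φ0 ≠ 0 := one_add_ne (hre 0 φ0 hφ0.1 hφ0.2)
      have hup : ContinuousAt (fun q : ℝ × ℝ => mz (up q.1 q.2)) (0, φ0) := by
        have h1 : ContinuousAt mz (up 0 φ0) := by
          unfold mz
          exact (continuousAt_const.sub continuousAt_id).div (continuousAt_const.add continuousAt_id) hre1
        have h2 : ContinuousAt (fun q : ℝ × ℝ => up q.1 q.2) (0, φ0) := up_cont.continuousAt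
        exact ContinuousAt.comp (f := fun q : ℝ × ℝ => up q.1 q.2) (g := mz) h1 h2
      have hup0 : ContinuousAt (fun q : ℝ × ℝ => mz (up 0 q.2)) (0, φ0) := by
        have : (fun q : ℝ × ℝ => mz (up 0 q.2))
            = (fun q : ℝ × ℝ => mz (up q.1 q.2)) ∘ (fun q : ℝ × ℝ => (0, q.2)) := rfl
        rw [this]
        apply ContinuousAt.comp
        · exact hup
        · fun_prop
      have hpair : Tendsto (fun q : ℝ × ℝ => (mz (up q.1 q.2), mz (up 0 q.2))) (𝓝 (0, φ0))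
          (𝓝 (mz (up 0 φ0), mz (up 0 φ0))) := by
        have := hup.prodMk hup0
        exact this
      have hev := hpair.eventually hC
      rw [Metric.eventually_nhds_iff] at hev
      obtain ⟨r, hr0, hr⟩ := hev
      refine ⟨Metric.ball φ0 (r / 2) ∩ Icc 0 p, ?_, ?_⟩
      · rw [inter_comm]
        exact inter_mem_nhdsWithin _ (Metric.ball_mem_nhds _ (by positivity))
      · refine ⟨4 * C, min (r / 2) 1, by positivity, by positivity, ?_⟩
        rintro φ ⟨hφ1, hφ2⟩ s hs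
        have hs1 : |s| ≤ r / 2 := hs.trans (min_le_left _ _)
        have hs2 : |s| ≤ 1 := hs.trans (min_le_right _ _)
        have hdist : dist (s, φ) ((0 : ℝ), φ0) < r := by
          rw [Prod.dist_eq, max_lt_iff]
          constructor
          · rw [Real.dist_eq, sub_zero]; linarith
          · have := Metric.mem_ball.1 hφ1
            linarith
        have h4 := hr hdist
        simp only at h4
        have hz0 : om η (mz (up 0 φ)) = 0 := by
          rw [mz_up_zero (hcos φ hφ2.1 hφ2.2)]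
          apply om_slit hη
          have := htan φ hφ2.1 hφ2.2
          rw [abs_neg, abs_of_nonneg this.1]
          exact this.2.le
        rw [hz0, sub_zero] at h4
        calc om η (mz (up s φ)) ≤ |om η (mz (up s φ))| := le_abs_self _
          _ ≤ C * ‖mz (up s φ) - mz (up 0 φ)‖ := h4
          _ ≤ C * (2 * ‖up s φ - up 0 φ‖) := by
            apply mul_le_mul_of_nonneg_left _ hC0.le
            exact mz_sub (hre s φ hφ2.1 hφ2.2) (hre 0 φ hφ2.1 hφ2.2)
          _ ≤ C * (2 * (2 * |s|)) := by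
            apply mul_le_mul_of_nonneg_left _ hC0.le
            linarith [up_sub (φ := φ) hs2]
          _ = 4 * C * |s| := by ring
  obtain ⟨C, τ, hC, hτ, h⟩ := key
  refine ⟨max C (η / τ), by positivity, ?_⟩
  intro s φ h0 h1
  rcases le_or_gt |s| τ with hs | hs
  · exact (h φ ⟨h0, h1⟩ s hs).trans (mul_le_mul_of_nonneg_right (le_max_left _ _) (abs_nonneg _))
  · have h2 := om_le hη (mz_norm_le (hre s φ h0 h1))
    calc om η (mz (up s φ)) ≤ η := h2
      _ = η / τ * τ := by field_simp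
      _ ≤ η / τ * |s| := mul_le_mul_of_nonneg_left hs.le (by positivity)
      _ ≤ max C (η / τ) * |s| := mul_le_mul_of_nonneg_right (le_max_right _ _) (abs_nonneg _)

end Pool.Agent.Lib.MP_0430e4_lc.YA
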