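import Pool.Agent.Lib.MP_0430e4_lc.YP.Om
import Pool.Agent.Lib.MP_0430e4_lc.YK.K1

/-!
# Angular monotonicity, part 7: the strict inequalities of the field `hfar` off the real axis
-/

set_option autoImplicit false

namespace Pool.Agent.Lib.MP_0430e4_lc.YA

open Complex Filter Topology Set YG
open BY (up zu)

theorem zu_eq (u : ℂ) : zu u = mz u := rfl

/-- the potential on the `u` side -/
noncomputable def WU (t s φ : ℝ) : ℝ := Real.log ‖1 + up s φ‖ + YP.Ud t (zu (up s φ))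

theorem cos_nonneg' {φ : ℝ} (h0 : 0 ≤ φ) (h1 : φ ≤ Real.pi / 2) : 0 ≤ Real.cos φ :=
  Real.cos_nonneg_of_neg_pi_div_two_le_of_le (by linarith [Real.pi_pos]) h1

theorem up_re_nonneg {s φ : ℝ} (h : 0 ≤ Real.cos φ) : 0 ≤ (up s φ).re := by
  rw [up_re]; exact mul_nonneg (Real.exp_pos _).le h

theorem zu_up_norm_le {s φ : ℝ} (h : 0 ≤ Real.cos φ) : ‖zu (up s φ)‖ ≤ 1 :=
  mz_norm_le (up_re_nonneg h)

theorem zu_cont : ContinuousOn (fun q : ℝ × ℝ => zu (up q.1 q.2)) {q : ℝ × ℝ | 0 ≤ Real.cos q.2} := by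
  unfold BY.zu
  apply ContinuousOn.div
  · exact (continuous_const.sub up_cont).continuousOn
  · exact (continuous_const.add up_cont).continuousOn
  · intro q hq
    exact one_add_ne (up_re_nonneg hq)

theorem WU_cont {t : ℝ} (ht : 0 < t) :
    ContinuousOn (fun q : ℝ × ℝ => WU t q.1 q.2) {q : ℝ × ℝ | 0 ≤ Real.cos q.2} := by
  have hη : 0 < t / 2 := by linarith
  unfold WU
  apply ContinuousOn.add
  · apply ContinuousOn.log
    · exact (continuous_const.add up_cont).norm.continuousOn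
    · intro q hq
      exact norm_ne_zero_iff.2 (one_add_ne (up_re_nonneg hq))
  · unfold YP.Ud
    refine (UG_cont hη _).comp (f := fun q : ℝ × ℝ => zu (up q.1 q.2)) zu_cont ?_
    intro q hq
    rw [mem_closedBall_zero_iff]
    exact zu_up_norm_le hq

/-- `log |1 + u|` on the unit circle -/
theorem log_one_up_zero {φ : ℝ} (h : 0 ≤ Real.cos φ) :
    Real.log ‖1 + up 0 φ‖ + Real.log (1 + Real.tan (φ / 2) ^ 2) / 2 = Real.log 2 := by
  have h2 : Real.cos (φ / 2) ^ 2 = 1 / 2 + Real.cos φ / 2 := by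
    rw [Real.cos_sq, show 2 * (φ / 2) = φ by ring]
  have hc : Real.cos (φ / 2) ≠ 0 := by
    intro h0
    rw [h0] at h2
    nlinarith
  have hc2 : 0 < Real.cos (φ / 2) ^ 2 := by positivity
  have e1 : ‖1 + up 0 φ‖ ^ 2 = 4 * Real.cos (φ / 2) ^ 2 := by
    rw [← Complex.normSq_eq_norm_sq, Complex.normSq_apply]
    have r1 : (1 + up 0 φ).re = 1 + Real.cos φ := by
      rw [Complex.add_re, up_re]; simp
    have r2 : (1 + up 0 φ).im = Real.sin φ := by
      unfold BY.up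
      rw [Complex.add_im, Complex.exp_im]; simp
    rw [r1, r2, h2]
    nlinarith [Real.sin_sq_add_cos_sq φ]
  have e2 : 1 + Real.tan (φ / 2) ^ 2 = (Real.cos (φ / 2) ^ 2)⁻¹ := by
    rw [Real.tan_eq_sin_div_cos]
    field_simp
    linarith [Real.sin_sq_add_cos_sq (φ / 2)]
  have e3 : Real.log ‖1 + up 0 φ‖ = Real.log (4 * Real.cos (φ / 2) ^ 2) / 2 := by
    rw [← e1, Real.log_pow]; push_cast; ring
  have e4 : Real.log 4 = 2 * Real.log 2 := by
    rw [show (4 : ℝ) = 2 ^ 2 by norm_num, Real.log_pow]; push_cast; ring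
  rw [e3, e2, Real.log_mul (by norm_num) hc2.ne', Real.log_inv, e4]
  ring

/-- off the real axis: the rate is linear in `s` -/
theorem hf1 {t : ℝ} (ht : 0 < t) {φ1 : ℝ} (hφ : 0 < φ1) (S : ℝ) : ∃ c : ℝ, 0 < c ∧
    ∀ s φ : ℝ, 0 < s → s ≤ S → φ1 ≤ φ → φ ≤ Real.pi / 2 →
      WU t s φ + c * s ≤ s + AC.hxU (AC.UI t) (Real.exp (-s)) := by
  obtain ⟨c, hc0, hc⟩ := ang_up_pos ht
  have hpi := Real.pi_pos
  rcases lt_or_ge (Real.pi / 2) φ1 with hbig | hφ1
  · exact ⟨1, one_pos, fun s φ _ _ h1 h2 => by linarith⟩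
  have hcos : Real.cos φ1 < 1 := by
    have := Real.cos_lt_cos_of_nonneg_of_le_pi (x := 0) (y := φ1) le_rfl (by linarith) hφ
    rwa [Real.cos_zero] at this
  have hS := Real.exp_pos (-S)
  refine ⟨c * (Real.exp (-S) * (Real.exp (-S) * (1 - Real.cos φ1))), ?_, ?_⟩
  · have : 0 < 1 - Real.cos φ1 := by linarith
    positivity
  intro s φ h0 h1 h2 h3
  have h4 := hc s φ h0 (cos_nonneg' (by linarith) h3)
  have e1 : s * Real.exp (-S) ≤ 1 - Real.exp (-s) := by
    have a1 : s * Real.exp (-s) ≤ 1 - Real.exp (-s) := by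
      have := Real.add_one_le_exp s
      have h5 : Real.exp s * Real.exp (-s) = 1 := by rw [← Real.exp_add]; simp
      nlinarith [Real.exp_pos (-s)]
    have a2 : Real.exp (-S) ≤ Real.exp (-s) := Real.exp_le_exp.2 (by linarith)
    nlinarith
  have e2 : Real.exp (-S) * (1 - Real.cos φ1) ≤ Real.exp (-s) * (1 - Real.cos φ) := by
    have a1 : Real.exp (-S) ≤ Real.exp (-s) := Real.exp_le_exp.2 (by linarith)
    have a2 : Real.cos φ ≤ Real.cos φ1 :=
      Real.cos_le_cos_of_nonneg_of_le_pi hφ.le (by linarith) h2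
    apply mul_le_mul a1 (by linarith) (by linarith) (Real.exp_pos _).le
  have e3 : s * Real.exp (-S) * (Real.exp (-S) * (1 - Real.cos φ1))
      ≤ (1 - Real.exp (-s)) * (Real.exp (-s) * (1 - Real.cos φ)) := by
    apply mul_le_mul e1 e2
    · have : 0 < 1 - Real.cos φ1 := by linarith
      positivity
    · have : Real.exp (-s) < 1 := by rw [Real.exp_lt_one_iff]; linarith
      linarith
  have h5 : WU t s φ ≤ s + AC.hxU (AC.UI t) (Real.exp (-s))
      - c * ((1 - Real.exp (-s)) * (Real.exp (-s) * (1 - Real.cos φ))) := h4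
  nlinarith

theorem WU_le {t : ℝ} (ht : 0 < t) {s φ : ℝ} (hs : 0 < s) (h0 : 0 ≤ φ) (h1 : φ ≤ Real.pi / 2) :
    WU t s φ ≤ s + AC.hxU (AC.UI t) (Real.exp (-s)) := by
  obtain ⟨c, hc0, hc⟩ := ang_up_pos ht
  have h4 := hc s φ hs (cos_nonneg' h0 h1)
  have h5 : WU t s φ ≤ s + AC.hxU (AC.UI t) (Real.exp (-s))
      - c * ((1 - Real.exp (-s)) * (Real.exp (-s) * (1 - Real.cos φ))) := h4
  have h6 : 0 ≤ c * ((1 - Real.exp (-s)) * (Real.exp (-s) * (1 - Real.cos φ))) := by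
    have a1 : Real.exp (-s) < 1 := by rw [Real.exp_lt_one_iff]; linarith
    have a2 := Real.cos_le_one φ
    have a3 := Real.exp_pos (-s)
    apply mul_nonneg hc0.le (mul_nonneg (by linarith) (mul_nonneg a3.le (by linarith)))
  linarith

/-- the value at `s = 0` on the slit: `log 2` -/
theorem WU_zero_slit {t : ℝ} (ht : 0 < t) {φ : ℝ} (h0 : 0 ≤ φ) (h1 : φ ≤ YP.psi0 t) :
    WU t 0 φ = Real.log 2 := by
  have hη : 0 < t / 2 := by linarith
  have hpi := Real.pi_pos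
  have htp := YP.tp_lt_one hη
  have hat : Real.arctan (YP.tp (t / 2)) < Real.pi / 4 := by
    rw [← Real.arctan_one]
    exact Real.arctan_strictMono htp
  have hφ : φ ≤ 2 * Real.arctan (YP.tp (t / 2)) := h1
  have hc : 0 ≤ Real.cos φ := cos_nonneg' h0 (by linarith)
  have ht1 : 0 ≤ Real.tan (φ / 2) :=
    Real.tan_nonneg_of_nonneg_of_le_pi_div_two (by linarith) (by linarith)
  have ht2 : Real.tan (φ / 2) ≤ YP.tp (t / 2) := by
    rcases hφ.lt_or_eq with h | h
    · calc Real.tan (φ / 2) ≤ Real.tan (Real.arctan (YP.tp (t / 2))) :=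
            (Real.tan_lt_tan_of_nonneg_of_lt_pi_div_two (by linarith) (by linarith)
              (by linarith)).le
        _ = YP.tp (t / 2) := Real.tan_arctan _
    · rw [h, show 2 * Real.arctan (YP.tp (t / 2)) / 2 = Real.arctan (YP.tp (t / 2)) by ring,
        Real.tan_arctan]
  have e : zu (up 0 φ) = ((-Real.tan (φ / 2) : ℝ) : ℂ) * I := mz_up_zero hc
  unfold WU
  rw [e, YP.Ud_slit ht (by rw [abs_neg, abs_of_nonneg ht1]; exact ht2), neg_sq]
  exact log_one_up_zero hc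

/-- `s + hxU (e^{-s})` is nearly `log 2` for small `s` -/
theorem hf0 {t : ℝ} (ht : 0 < t) {ε : ℝ} (hε : 0 < ε) : ∃ s0 : ℝ, 0 < s0 ∧
    ∀ s : ℝ, 0 < s → s ≤ s0 → Real.log 2 - ε ≤ s + AC.hxU (AC.UI t) (Real.exp (-s)) := by
  have hpi := Real.pi_pos
  have hψ : 0 ≤ YP.psi0 t := by
    have : 0 < YP.tp (t / 2) := YP.tp_pos (by linarith)
    unfold YP.psi0
    have h := Real.arctan_pos.2 this
    linarith
  have h1 := WU_cont ht (0, 0) (by simp : (0 : ℝ) ≤ Real.cos ((0 : ℝ), (0 : ℝ)).2)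
  have h2 : WU t 0 0 = Real.log 2 := WU_zero_slit ht le_rfl hψ
  rw [Metric.continuousWithinAt_iff] at h1
  obtain ⟨d, hd, h3⟩ := h1 ε hε
  refine ⟨d / 2, by linarith, ?_⟩
  intro s hs0 hs1
  have h4 := h3 (x := (s, 0)) (by simp) (by
    rw [Prod.dist_eq, Real.dist_eq, Real.dist_eq]
    simp only [sub_zero, abs_zero]
    rw [abs_of_pos hs0, max_lt_iff]
    constructor <;> linarith)
  rw [Real.dist_eq] at h4
  simp only [h2] at h4
  have h5 := (abs_lt.1 h4).1
  have h6 := WU_le ht hs0 (φ := 0) le_rfl (by linarith)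
  linarith

/-- the value on the unit circle beyond the slit -/
theorem WU_zero_gap {t : ℝ} (ht : 0 < t) {p4 : ℝ} (hp : YP.psi0 t < p4) : ∃ g : ℝ, 0 < g ∧
    ∀ φ : ℝ, p4 ≤ φ → φ ≤ Real.pi / 2 → WU t 0 φ ≤ Real.log 2 - g := by
  have hη : 0 < t / 2 := by linarith
  have hpi := Real.pi_pos
  have htp := YP.tp_pos hη
  have hψ : 0 ≤ YP.psi0 t := by
    unfold YP.psi0
    have h := Real.arctan_pos.2 htp
    linarith
  rcases lt_or_ge (Real.pi / 2) p4 with hbig | hp4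
  · exact ⟨1, one_pos, fun φ h1 h2 => by linarith⟩
  have htan : YP.tp (t / 2) < Real.tan (p4 / 2) := by
    rw [← YP.tan_psi0 ht]
    exact Real.tan_lt_tan_of_nonneg_of_lt_pi_div_two (by linarith) (by linarith) (by linarith)
  obtain ⟨g, hg, h⟩ := YK.gap_unif hη (w := Real.tan (p4 / 2) - YP.tp (t / 2)) (by linarith)
  refine ⟨g, hg, ?_⟩
  intro φ h1 h2
  have hc : 0 ≤ Real.cos φ := cos_nonneg' (by linarith) h2
  have ht1 : Real.tan (p4 / 2) ≤ Real.tan (φ / 2) := by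
    rcases h1.lt_or_eq with h3 | h3
    · exact (Real.tan_lt_tan_of_nonneg_of_lt_pi_div_two (by linarith) (by linarith)
        (by linarith)).le
    · rw [h3]
  have ht0 : 0 < Real.tan (φ / 2) := by linarith
  have ht2 : Real.tan (φ / 2) ≤ 1 := by
    rw [← Real.tan_pi_div_four]
    rcases h2.lt_or_eq with h3 | h3
    · exact (Real.tan_lt_tan_of_nonneg_of_lt_pi_div_two (by linarith) (by linarith)
        (by linarith)).le
    · rw [h3, show Real.pi / 2 / 2 = Real.pi / 4 by ring]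
  have e : zu (up 0 φ) = ((-Real.tan (φ / 2) : ℝ) : ℂ) * I := mz_up_zero hc
  have e0 : (2 : ℝ) * (t / 2) = t := by ring
  have h5 := h (-Real.tan (φ / 2)) (by
    rw [abs_neg, abs_of_pos ht0]
    have : YK.tip (t / 2) = YP.tp (t / 2) := rfl
    rw [this]
    linarith) (by rw [abs_neg, abs_of_pos ht0]; exact ht2)
  rw [e0, neg_sq] at h5
  have h6 := log_one_up_zero hc
  unfold WU YP.Ud
  rw [e]
  linarith

/-- beyond the slit: a uniform gap up to `s = 0` -/
theorem hf2 {t : ℝ} (ht : 0 < t) {p4 : ℝ} (hp : YP.psi0 t < p4) (S : ℝ) : ∃ c : ℝ, 0 < c ∧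
    ∀ s φ : ℝ, 0 < s → s ≤ S → p4 ≤ φ → φ ≤ Real.pi / 2 →
      WU t s φ + c ≤ s + AC.hxU (AC.UI t) (Real.exp (-s)) := by
  have hη : 0 < t / 2 := by linarith
  have hpi := Real.pi_pos
  have htp := YP.tp_pos hη
  have hψ : 0 < YP.psi0 t := by
    unfold YP.psi0
    have h := Real.arctan_pos.2 htp
    linarith
  obtain ⟨g, hg, hgap⟩ := WU_zero_gap ht hp
  obtain ⟨c1, hc1, h1⟩ := hf1 ht (φ1 := p4) (by linarith) S
  obtain ⟨s0, hs0, h0⟩ := hf0 ht (ε := g / 4) (by linarith)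
  -- near `s = 0` by uniform continuity
  have hK : IsCompact ((Set.Icc (0 : ℝ) 1) ×ˢ (Set.Icc p4 (Real.pi / 2))) :=
    isCompact_Icc.prod isCompact_Icc
  have hcont : ContinuousOn (fun q : ℝ × ℝ => WU t q.1 q.2)
      ((Set.Icc (0 : ℝ) 1) ×ˢ (Set.Icc p4 (Real.pi / 2))) := by
    refine (WU_cont ht).mono ?_
    rintro ⟨s, φ⟩ ⟨_, h⟩
    exact cos_nonneg' (by linarith [h.1]) h.2
  have huc := hK.uniformContinuousOn_of_continuous hcont
  rw [Metric.uniformContinuousOn_iff] at huc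
  obtain ⟨d, hd, hdd⟩ := huc (g / 4) (by linarith)
  set s1 := min (min s0 (d / 2)) 1 with hs1
  have hs1pos : 0 < s1 := by positivity
  refine ⟨min (g / 2) (c1 * s1), by positivity, ?_⟩
  intro s φ hs hsS hφ hφ2
  rcases le_or_gt s s1 with h | h
  · have a1 : s ≤ s0 := h.trans ((min_le_left _ _).trans (min_le_left _ _))
    have a2 : s ≤ d / 2 := h.trans ((min_le_left _ _).trans (min_le_right _ _))
    have a3 : s ≤ 1 := h.trans (min_le_right _ _)
    have h5 := hdd (s, φ) ⟨⟨hs.le, a3⟩, ⟨hφ, hφ2⟩⟩ (0, φ) ⟨⟨le_rfl, zero_le_one⟩, ⟨hφ, hφ2⟩⟩ (by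
      rw [Prod.dist_eq, Real.dist_eq, Real.dist_eq]
      simp only [sub_zero, sub_self, abs_zero]
      rw [abs_of_pos hs, max_lt_iff]
      constructor <;> linarith)
    rw [Real.dist_eq] at h5
    have h6 := (abs_lt.1 h5).2
    have h7 := hgap φ hφ hφ2
    have h8 := h0 s hs a1
    have h9 := min_le_left (g / 2) (c1 * s1)
    simp only at h6
    linarith
  · have h5 := h1 s φ hs hsS hφ hφ2
    have h6 : c1 * s1 ≤ c1 * s := mul_le_mul_of_nonneg_left h.le hc1.le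
    have h9 := min_le_right (g / 2) (c1 * s1)
    linarith

end Pool.Agent.Lib.MP_0430e4_lc.YA
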