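import Pool.Agent.Lib.MP_0430e4_lc.YA.A7
import Pool.Agent.Lib.MP_0430e4_lc.YP.EB

/-!
# The field `hfar` (helper88): all regions
-/

set_option autoImplicit false

open Polynomial

namespace Pool.Agent.Lib.MP_0430e4_lc.YA

open Complex
open BY AC YG YP

variable {t η1 ρ1 w ρ τ b0 ab ab' k3 k3' θs C4 zN κk x2 gb e1 l : ℝ} {N N0 m1 m2 : ℕ}
  {E : ℂ → ℂ} {q : ℝ[X]}

theorem hf_norm_lt {s φ : ℝ} (h : 0 < Real.cos φ) : ‖zu (up s φ)‖ < 1 := by
  have hre : 0 < (up s φ).re := by rw [up_re]; exact mul_pos (Real.exp_pos _) h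
  have h1 := mz_norm (one_add_ne hre.le)
  have h2 : 0 < Complex.normSq (1 + up s φ) := Complex.normSq_pos.2 (one_add_ne hre.le)
  have h3 : 0 < 4 * (up s φ).re / Complex.normSq (1 + up s φ) := by positivity
  rw [← h1, Complex.normSq_eq_norm_sq] at h3
  have h4 : zu (up s φ) = mz (up s φ) := rfl
  rw [h4]
  nlinarith [norm_nonneg (mz (up s φ))]

/-- the real part of `z` -/
theorem hf_re {s φ : ℝ} (h : 0 ≤ Real.cos φ) (hs : 0 < s) :
    (zu (up s φ)).re ≤ -(1 - 2 / (Real.exp s + 1)) := by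
  have hre : 0 ≤ (up s φ).re := up_re_nonneg h
  have h1 := mz_re (one_add_ne hre)
  have h2 : 0 < Complex.normSq (1 + up s φ) := Complex.normSq_pos.2 (one_add_ne hre)
  have h4 : zu (up s φ) = mz (up s φ) := rfl
  have e1 : 1 < Real.exp s := Real.one_lt_exp_iff.2 hs
  have h3 : Complex.normSq (1 + up s φ) ≤ (Real.exp s + 1) ^ 2 := by
    rw [Complex.normSq_eq_norm_sq]
    have : ‖1 + up s φ‖ ≤ Real.exp s + 1 := by
      calc ‖1 + up s φ‖ ≤ ‖(1 : ℂ)‖ + ‖up s φ‖ := norm_add_le _ _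
        _ = Real.exp s + 1 := by rw [norm_one, up_norm]; ring
    exact pow_le_pow_left₀ (norm_nonneg _) this 2
  rw [h4, h1, Complex.normSq_eq_norm_sq, up_norm, div_le_iff₀ h2]
  have e2 : -(1 - 2 / (Real.exp s + 1)) = -((Real.exp s - 1) / (Real.exp s + 1)) := by
    field_simp
    ring
  rw [e2]
  have h5 : (Real.exp s - 1) / (Real.exp s + 1) * Complex.normSq (1 + up s φ)
      ≤ (Real.exp s - 1) / (Real.exp s + 1) * (Real.exp s + 1) ^ 2 := by
    apply mul_le_mul_of_nonneg_left h3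
    apply div_nonneg <;> linarith
  have h6 : (Real.exp s - 1) / (Real.exp s + 1) * (Real.exp s + 1) ^ 2 = Real.exp s ^ 2 - 1 := by
    field_simp
    ring
  rw [h6] at h5
  linarith

/-- the general bound -/
theorem hf_bs (ht : 0 < t) (hc : SC t η1 ab ab' k3 k3' θs e1 N N0 m1 m2 q l) {s φ a b : ℝ}
    (hφ : 0 < Real.cos φ) (hE : ‖E (zu (up s φ))‖ ≤ Real.exp a)
    (hB : ‖1 + zu (up s φ) ^ 2 / (tp (t / 2) : ℂ) ^ 2‖ ≤ Real.exp b) :
    bs (F0of t q E m1 m2) N0 (up s φ) ≤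
      Real.exp (N0 * (WU t s φ - e1 / (t / 2) * om (t / 2) (zu (up s φ))) + m1 * a + m2 * b) := by
  have hz := hf_norm_lt (s := s) hφ
  have h1 := cp_bound ht hc.cp hc.mass hz.le
  have hpos : 0 < ‖1 + up s φ‖ := norm_pos_iff.2 (one_add_ne (up_re_nonneg hφ.le))
  unfold bs F0of
  rw [norm_mul, norm_mul, norm_pow, norm_pow]
  have e : Real.exp (N0 * (WU t s φ - e1 / (t / 2) * om (t / 2) (zu (up s φ))) + m1 * a + m2 * b)
      = ‖1 + up s φ‖ ^ N0 * (Real.exp (N0 * (Ud t (zu (up s φ))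
          - e1 / (t / 2) * om (t / 2) (zu (up s φ)))) * Real.exp a ^ m1 * Real.exp b ^ m2) := by
    have h2 : ‖1 + up s φ‖ ^ N0 = Real.exp (N0 * Real.log ‖1 + up s φ‖) := by
      rw [Real.exp_nat_mul, Real.exp_log hpos]
    rw [h2, ← Real.exp_nat_mul, ← Real.exp_nat_mul, ← Real.exp_add, ← Real.exp_add,
      ← Real.exp_add]
    congr 1
    unfold WU
    ring
  rw [e]
  gcongr

/-- near `z = 0` the factor `B` grows only with `Re z` -/
theorem hf_B {p : ℝ} (hp : 0 < p) {z : ℂ} (hz : ‖z‖ ≤ p / 2) :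
    ‖1 + z ^ 2 / (p : ℂ) ^ 2‖ ≤ Real.exp (9 / 8 * (z.re ^ 2 / p ^ 2)) := by
  have hns : z.re ^ 2 + z.im ^ 2 ≤ p ^ 2 / 4 := by
    have h1 : ‖z‖ ^ 2 = z.re ^ 2 + z.im ^ 2 := by
      rw [← Complex.normSq_eq_norm_sq, Complex.normSq_apply]; ring
    nlinarith [norm_nonneg z]
  set X := z.re ^ 2 / p ^ 2 with hX
  set Y := z.im ^ 2 / p ^ 2 with hY
  have hX0 : 0 ≤ X := by positivity
  have hY0 : 0 ≤ Y := by positivity
  have hXY : X + Y ≤ 1 / 4 := by
    rw [hX, hY, ← add_div, div_le_iff₀ (by positivity)]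
    linarith
  have e1 : ‖1 + z ^ 2 / (p : ℂ) ^ 2‖ ^ 2 = (1 + (X - Y)) ^ 2 + 4 * X * Y := by
    rw [← Complex.normSq_eq_norm_sq, Complex.normSq_apply]
    have e2 : (1 + z ^ 2 / (p : ℂ) ^ 2) = ((1 + (X - Y) : ℝ) : ℂ)
        + ((2 * (z.re * z.im) / p ^ 2 : ℝ) : ℂ) * I := by
      have hpc : (p : ℂ) ≠ 0 := by exact_mod_cast hp.ne'
      have hz : z = (z.re : ℂ) + (z.im : ℂ) * I := (Complex.re_add_im z).symm
      have hI : I ^ 2 = (-1 : ℂ) := Complex.I_sq
      rw [hX, hY]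
      push_cast
      conv_lhs => rw [hz]
      field_simp
      linear_combination ((z.im : ℂ) ^ 2) * hI
    rw [e2]
    simp only [Complex.add_re, Complex.ofReal_re, Complex.mul_re, Complex.I_re, mul_zero,
      Complex.ofReal_im, Complex.I_im, mul_one, sub_self, add_zero, Complex.add_im,
      Complex.mul_im, zero_add]
    rw [hX, hY]
    field_simp
    ring
  have h2 : ‖1 + z ^ 2 / (p : ℂ) ^ 2‖ ^ 2 ≤ Real.exp (9 / 8 * X) ^ 2 := by
    rw [e1, ← Real.exp_nat_mul]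
    have h3 := Real.add_one_le_exp (((2 : ℕ) : ℝ) * (9 / 8 * X))
    push_cast at h3 ⊢
    nlinarith [mul_nonneg hX0 hY0]
  have h3 := Real.exp_pos (9 / 8 * X)
  exact le_of_sq_le_sq h2 h3.le

/-- region (iii-a): `|z| ≤ zN` -/
theorem hf_iiia (hB : SB t η1 ρ1 w ρ τ b0 ab ab' k3 k3' θs C4 zN κk x2 gb N E)
    (hc : SC t η1 ab ab' k3 k3' θs e1 N N0 m1 m2 q l) {s φ : ℝ} (hs : 0 < s) (h0 : 0 ≤ φ)
    (h1 : φ < Real.pi / 2) (hz : ‖zu (up s φ)‖ ≤ zN) :
    bs (F0of t q E m1 m2) N0 (up s φ) ≤ Real.exp (N0 * (s + hxU (UI t) (Real.exp (-s))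
      - 7 / 32 * (ab' / A0 η1) * e1 * (1 - 2 / (Real.exp s + 1)))) := by
  have ht := hB.ht
  have hη : 0 < t / 2 := by linarith
  have hη1 : 0 < η1 := by linarith [hB.hη]
  have hA := A0_pos hη1
  have hcos : 0 < Real.cos φ := Real.cos_pos_of_mem_Ioo ⟨by linarith [Real.pi_pos], h1⟩
  have htp := tp_pos hη
  have hre := hf_re hcos.le hs
  set x := (zu (up s φ)).re with hx
  have hxi : 0 < 1 - 2 / (Real.exp s + 1) := by
    have e1 : 1 < Real.exp s := Real.one_lt_exp_iff.2 hs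
    rw [sub_pos, div_lt_one (by linarith)]
    linarith
  have hx0 : x < 0 := by linarith
  have hE := hB.left _ hz hx0.le
  have hBB := hf_B htp (hz.trans hB.hzN1)
  have h2 := hf_bs (E := E) ht hc hcos hE hBB
  refine h2.trans (Real.exp_le_exp.2 ?_)
  have hWU := WU_le ht hs h0 h1.le
  have hom := om_nonneg hη (zu_up_norm_le (s := s) hcos.le)
  have hN0 : (0 : ℝ) < N0 := by exact_mod_cast hc.N0pos
  have he1 := hc.he1
  -- the multiplier
  have a1 : (m1 : ℝ) * (N / (2 * A0 η1) * x) ≤ ab' * e1 * N0 / (2 * A0 η1) * x := by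
    have h3 := hc.m1ge
    have h4 : (m1 : ℝ) * (N / (2 * A0 η1) * x) = (m1 * N) / (2 * A0 η1) * x := by ring
    rw [h4]
    apply mul_le_mul_of_nonpos_right _ hx0.le
    exact div_le_div_of_nonneg_right h3 (by positivity)
  -- the factor `B`
  have hxz : -x ≤ zN := by
    have h5 := Complex.abs_re_le_norm (zu (up s φ))
    rw [← hx, abs_of_neg hx0] at h5
    linarith
  have a2 : (m2 : ℝ) * (9 / 8 * (x ^ 2 / tp (t / 2) ^ 2)) ≤
      9 / 32 * (ab' / A0 η1) * e1 * N0 * (-x) := by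
    have h5 : 0 ≤ 9 / 8 * (x ^ 2 / tp (t / 2) ^ 2) := by positivity
    refine (mul_le_mul_of_nonneg_right hc.m2le h5).trans ?_
    have h6 : x ^ 2 ≤ zN * (-x) := by nlinarith
    have h7 : k3 * zN * (1 / tp (t / 2) ^ 2) ≤ 1 / 4 * (ab' / A0 η1) := by
      have h8 := hB.kz
      rw [mul_one_div, div_le_iff₀ (by positivity)]
      have h9 : 1 / 4 * (ab' / A0 η1) * tp (t / 2) ^ 2 = (ab' * tp (t / 2) ^ 2) / (4 * A0 η1) := by
        field_simp
      rw [h9, le_div_iff₀ (by positivity)]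
      linarith
    have h10 : k3 * e1 * N0 * (9 / 8 * (x ^ 2 / tp (t / 2) ^ 2)) ≤
        k3 * e1 * N0 * (9 / 8 * (zN * (-x) / tp (t / 2) ^ 2)) := by
      have := hB.hk3
      gcongr
    refine h10.trans ?_
    have h11 : k3 * e1 * N0 * (9 / 8 * (zN * (-x) / tp (t / 2) ^ 2))
        = 9 / 8 * (e1 * N0 * (-x)) * (k3 * zN * (1 / tp (t / 2) ^ 2)) := by
      field_simp
    rw [h11]
    have h12 : 0 ≤ 9 / 8 * (e1 * N0 * (-x)) := by
      have : 0 < -x := by linarith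
      positivity
    calc 9 / 8 * (e1 * N0 * (-x)) * (k3 * zN * (1 / tp (t / 2) ^ 2))
        ≤ 9 / 8 * (e1 * N0 * (-x)) * (1 / 4 * (ab' / A0 η1)) :=
          mul_le_mul_of_nonneg_left h7 h12
      _ = _ := by ring
  have a3 : 0 ≤ e1 / (t / 2) * om (t / 2) (zu (up s φ)) := by positivity
  have a4 : ab' * e1 * N0 / (2 * A0 η1) * x = -(1 / 2 * (ab' / A0 η1) * e1 * N0 * (-x)) := by
    field_simp
  have a5 : 7 / 32 * (ab' / A0 η1) * e1 * N0 * (1 - 2 / (Real.exp s + 1)) ≤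
      7 / 32 * (ab' / A0 η1) * e1 * N0 * (-x) := by
    have := hB.hab'
    apply mul_le_mul_of_nonneg_left (by linarith) (by positivity)
  have a6 : (N0 : ℝ) * (WU t s φ - e1 / (t / 2) * om (t / 2) (zu (up s φ))) ≤
      N0 * (s + hxU (UI t) (Real.exp (-s))) :=
    mul_le_mul_of_nonneg_left (by linarith) hN0.le
  rw [a4] at a1
  nlinarith

/-- the radial majorant with the angle -/
noncomputable def P4 (t η1 ab k3 C4 : ℝ) (N : ℕ) (z : ℂ) : ℝ :=
  -om (t / 2) z / (t / 2) + ab * (om η1 z + Real.log (1 + C4 * ‖z‖ ^ 4) / N) +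
    k3 * Real.log (1 + ‖z‖ ^ 2 / tp (t / 2) ^ 2)

theorem P4_cont (ht : 0 < t) (hη1 : 0 < η1) (hC : 0 < C4) :
    ContinuousOn (P4 t η1 ab k3 C4 N) (Metric.closedBall 0 1) := by
  have hη : 0 < t / 2 := by linarith
  have htp := tp_pos hη
  unfold P4
  have h1 : Continuous (fun z : ℂ => Real.log (1 + C4 * ‖z‖ ^ 4)) := by
    apply Continuous.log (by fun_prop)
    intro z
    positivity
  have h2 : Continuous (fun z : ℂ => Real.log (1 + ‖z‖ ^ 2 / tp (t / 2) ^ 2)) := by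
    apply Continuous.log (by fun_prop)
    intro z
    positivity
  have h3 := om_cont hη
  have h4 := om_cont hη1
  exact ((h3.neg.div_const _).add ((h4.add (h1.div_const _).continuousOn).const_mul ab)).add
    (h2.continuousOn.const_mul k3)

theorem P4_neg (ht : 0 < t) (hη1 : 0 < η1) {z : ℂ} (hz : ‖z‖ ≤ 1) :
    P4 t η1 ab k3 C4 N (-z) = P4 t η1 ab k3 C4 N z := by
  unfold P4
  rw [om_neg (by linarith) hz, om_neg hη1 hz, norm_neg]

/-- near the negative axis `P4` is negative -/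
theorem hf_P4 (hB : SB t η1 ρ1 w ρ τ b0 ab ab' k3 k3' θs C4 zN κk x2 gb N E) :
    ∃ d : ℝ, 0 < d ∧ ∀ z : ℂ, x2 ≤ ‖z‖ → ‖z‖ < 1 → z.re ≤ 0 → |z.im| ≤ d →
      P4 t η1 ab k3 C4 N z ≤ -(gb / 2) := by
  have ht := hB.ht
  have hη : 0 < t / 2 := by linarith
  have hη1 : 0 < η1 := by linarith [hB.hη]
  have hgb := hB.hgb
  have huc := (isCompact_closedBall (0 : ℂ) 1).uniformContinuousOn_of_continuous
    (P4_cont (ab := ab) (k3 := k3) (N := N) ht hη1 hB.hC4)
  rw [Metric.uniformContinuousOn_iff] at huc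
  obtain ⟨d, hd, h⟩ := huc (gb / 2) (by linarith)
  refine ⟨d / 4, by linarith, ?_⟩
  intro z h1 h2 h3 h4
  set x : ℝ := ‖z‖ with hx
  have hx0 : 0 ≤ x := norm_nonneg z
  have hn : ‖((x : ℝ) : ℂ)‖ = x := by
    rw [Complex.norm_real, Real.norm_eq_abs, abs_of_nonneg hx0]
  have hdist : dist z (-(x : ℂ)) < d := by
    rw [Complex.dist_eq, sub_neg_eq_add]
    have e : z + (x : ℂ) = ((z.re + x : ℝ) : ℂ) + (z.im : ℂ) * I := by
      conv_lhs => rw [← Complex.re_add_im z]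
      push_cast
      ring
    have h5 : x ≤ |z.re| + |z.im| := Complex.norm_le_abs_re_add_abs_im z
    have h6 : |z.re| = -z.re := abs_of_nonpos h3
    have h7 : -z.re ≤ x := by rw [← h6]; exact Complex.abs_re_le_norm z
    rw [e]
    calc ‖((z.re + x : ℝ) : ℂ) + (z.im : ℂ) * I‖
        ≤ ‖((z.re + x : ℝ) : ℂ)‖ + ‖(z.im : ℂ) * I‖ := norm_add_le _ _
      _ = |z.re + x| + |z.im| := by
        rw [norm_mul, Complex.norm_I, mul_one, Complex.norm_real, Complex.norm_real,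
          Real.norm_eq_abs, Real.norm_eq_abs]
      _ < d := by
        rw [abs_of_nonneg (by linarith)]
        linarith
  have h5 := h z (by rw [mem_closedBall_zero_iff]; linarith) (-(x : ℂ))
    (by rw [mem_closedBall_zero_iff, norm_neg, hn]; linarith) hdist
  rw [Real.dist_eq] at h5
  have h6 := (abs_lt.1 h5).2
  rw [P4_neg ht hη1 (by rw [hn]; linarith)] at h6
  have h7 := hB.bR x h1 h2
  have h8 : P4 t η1 ab k3 C4 N (x : ℂ) ≤ -gb := by
    unfold P4
    rw [hn]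
    exact h7
  linarith

/-- region (iii-b) -/
theorem hf_iiib (hB : SB t η1 ρ1 w ρ τ b0 ab ab' k3 k3' θs C4 zN κk x2 gb N E)
    (hc : SC t η1 ab ab' k3 k3' θs e1 N N0 m1 m2 q l) {s φ g : ℝ} (hs : 0 < s) (h0 : 0 ≤ φ)
    (h1 : φ < Real.pi / 2) (hP : P4 t η1 ab k3 C4 N (zu (up s φ)) ≤ -g) :
    bs (F0of t q E m1 m2) N0 (up s φ) ≤
      Real.exp (N0 * (s + hxU (UI t) (Real.exp (-s)) - e1 * g)) := by
  have ht := hB.ht
  have hη : 0 < t / 2 := by linarith
  have hη1 : 0 < η1 := by linarith [hB.hη]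
  have hcos : 0 < Real.cos φ := Real.cos_pos_of_mem_Ioo ⟨by linarith [Real.pi_pos], h1⟩
  have htp := tp_pos hη
  have hz := hf_norm_lt (s := s) hcos
  have hC4 := hB.hC4
  set z := zu (up s φ) with hzdef
  have hE : ‖E z‖ ≤ Real.exp (N * om η1 z + Real.log (1 + C4 * ‖z‖ ^ 4)) := by
    rw [Real.exp_add, Real.exp_log (by positivity)]
    exact hB.hEP.bnd4 z hz
  have hBB : ‖1 + z ^ 2 / (tp (t / 2) : ℂ) ^ 2‖ ≤
      Real.exp (Real.log (1 + ‖z‖ ^ 2 / tp (t / 2) ^ 2)) := by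
    rw [Real.exp_log (by positivity)]
    refine (norm_add_le _ _).trans (le_of_eq ?_)
    rw [norm_one, norm_div, norm_pow, norm_pow, Complex.norm_real, Real.norm_eq_abs, sq_abs]
  have h2 := hf_bs (E := E) ht hc hcos hE hBB
  refine h2.trans (Real.exp_le_exp.2 ?_)
  have hWU := WU_le ht hs h0 h1.le
  have hN0 : (0 : ℝ) < N0 := by exact_mod_cast hc.N0pos
  have hN : (0 : ℝ) < N := by exact_mod_cast hB.hN
  have he1 := hc.he1
  have hom1 := om_nonneg hη1 hz.le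
  have hl1 : 0 ≤ Real.log (1 + C4 * ‖z‖ ^ 4) := Real.log_nonneg (by
    have : 0 ≤ C4 * ‖z‖ ^ 4 := by positivity
    linarith)
  have hl2 : 0 ≤ Real.log (1 + ‖z‖ ^ 2 / tp (t / 2) ^ 2) := Real.log_nonneg (by
    have : 0 ≤ ‖z‖ ^ 2 / tp (t / 2) ^ 2 := by positivity
    linarith)
  have a1 : (m1 : ℝ) * (N * om η1 z + Real.log (1 + C4 * ‖z‖ ^ 4)) ≤
      N0 * (e1 * (ab * (om η1 z + Real.log (1 + C4 * ‖z‖ ^ 4) / N))) := by
    have e : (m1 : ℝ) * (N * om η1 z + Real.log (1 + C4 * ‖z‖ ^ 4))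
        = (m1 * N) * (om η1 z + Real.log (1 + C4 * ‖z‖ ^ 4) / N) := by
      field_simp
    rw [e]
    have h3 : 0 ≤ om η1 z + Real.log (1 + C4 * ‖z‖ ^ 4) / N := by positivity
    refine (mul_le_mul_of_nonneg_right hc.m1le h3).trans (le_of_eq ?_)
    ring
  have a2 : (m2 : ℝ) * Real.log (1 + ‖z‖ ^ 2 / tp (t / 2) ^ 2) ≤
      N0 * (e1 * (k3 * Real.log (1 + ‖z‖ ^ 2 / tp (t / 2) ^ 2))) := by
    refine (mul_le_mul_of_nonneg_right hc.m2le hl2).trans (le_of_eq ?_)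
    ring
  have a3 : (N0 : ℝ) * (WU t s φ - e1 / (t / 2) * om (t / 2) z) ≤
      N0 * (s + hxU (UI t) (Real.exp (-s)) + e1 * (-om (t / 2) z / (t / 2))) := by
    apply mul_le_mul_of_nonneg_left _ hN0.le
    have : e1 * (-om (t / 2) z / (t / 2)) = -(e1 / (t / 2) * om (t / 2) z) := by ring
    rw [this]
    linarith
  have a4 : (N0 : ℝ) * (e1 * P4 t η1 ab k3 C4 N z) ≤ N0 * (e1 * (-g)) :=
    mul_le_mul_of_nonneg_left (mul_le_mul_of_nonneg_left hP he1.le) hN0.le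
  have e : (N0 : ℝ) * (e1 * P4 t η1 ab k3 C4 N z) =
      N0 * (e1 * (-om (t / 2) z / (t / 2)))
      + N0 * (e1 * (ab * (om η1 z + Real.log (1 + C4 * ‖z‖ ^ 4) / N)))
      + N0 * (e1 * (k3 * Real.log (1 + ‖z‖ ^ 2 / tp (t / 2) ^ 2))) := by
    unfold P4
    ring
  rw [e] at a4
  have e5 : (N0 : ℝ) * (s + hxU (UI t) (Real.exp (-s)) - e1 * g) =
      N0 * (s + hxU (UI t) (Real.exp (-s))) + N0 * (e1 * (-g)) := by ring
  rw [e5]
  have e6 : (N0 : ℝ) * (s + hxU (UI t) (Real.exp (-s)) + e1 * (-om (t / 2) z / (t / 2))) =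
      N0 * (s + hxU (UI t) (Real.exp (-s))) + N0 * (e1 * (-om (t / 2) z / (t / 2))) := by ring
  rw [e6] at a3
  linarith

/-- regions (i) and (ii): the crude bound -/
theorem hf_crude (hB : SB t η1 ρ1 w ρ τ b0 ab ab' k3 k3' θs C4 zN κk x2 gb N E)
    (hc : SC t η1 ab ab' k3 k3' θs e1 N N0 m1 m2 q l) {s φ a v : ℝ} (h0 : 0 ≤ φ)
    (h1 : φ < Real.pi / 2) (ha : om η1 (zu (up s φ)) ≤ a) (hv0 : 0 ≤ v)
    (hv : ‖1 + zu (up s φ) ^ 2 / (tp (t / 2) : ℂ) ^ 2‖ ≤ 1 + v) :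
    bs (F0of t q E m1 m2) N0 (up s φ) ≤
      Real.exp (N0 * (WU t s φ + e1 * (4 * ab * a + k3 * v))) := by
  have ht := hB.ht
  have hη : 0 < t / 2 := by linarith
  have hη1 : 0 < η1 := by linarith [hB.hη]
  have hcos : 0 < Real.cos φ := Real.cos_pos_of_mem_Ioo ⟨by linarith [Real.pi_pos], h1⟩
  have hz := hf_norm_lt (s := s) hcos
  have hom1 := om_nonneg hη1 hz.le
  have hN0 : (0 : ℝ) < N0 := by exact_mod_cast hc.N0pos
  have hN : (0 : ℝ) < N := by exact_mod_cast hB.hN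
  have hN1 : (1 : ℝ) ≤ N := by exact_mod_cast hB.hN
  have he1 := hc.he1
  have hab := hB.hab
  have hk3 := hB.hk3
  have ha0 : 0 ≤ a := hom1.trans ha
  have hE : ‖E (zu (up s φ))‖ ≤ Real.exp ((N + 3) * a) := by
    refine (hB.hEP.bnd _ hz).trans ?_
    have h2 : Real.cosh (om η1 (zu (up s φ))) ≤ Real.exp (om η1 (zu (up s φ))) := by
      rw [Real.cosh_eq]
      have : Real.exp (-om η1 (zu (up s φ))) ≤ Real.exp (om η1 (zu (up s φ))) :=
        Real.exp_le_exp.2 (by linarith)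
      linarith
    have h3 : Real.cosh (om η1 (zu (up s φ))) ^ 3 ≤ Real.exp (om η1 (zu (up s φ))) ^ 3 :=
      pow_le_pow_left₀ (Real.cosh_pos _).le h2 3
    calc Real.exp (N * om η1 (zu (up s φ))) * Real.cosh (om η1 (zu (up s φ))) ^ 3
        ≤ Real.exp (N * om η1 (zu (up s φ))) * Real.exp (om η1 (zu (up s φ))) ^ 3 :=
          mul_le_mul_of_nonneg_left h3 (Real.exp_pos _).le
      _ = Real.exp ((N + 3) * om η1 (zu (up s φ))) := by
          rw [← Real.exp_nat_mul, ← Real.exp_add]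
          congr 1
          push_cast
          ring
      _ ≤ Real.exp ((N + 3) * a) := Real.exp_le_exp.2
          (mul_le_mul_of_nonneg_left ha (by positivity))
  have hBB : ‖1 + zu (up s φ) ^ 2 / (tp (t / 2) : ℂ) ^ 2‖ ≤ Real.exp v :=
    hv.trans (by linarith [Real.add_one_le_exp v])
  have h2 := hf_bs (E := E) ht hc hcos hE hBB
  refine h2.trans (Real.exp_le_exp.2 ?_)
  have hom := om_nonneg hη hz.le
  have a1 : (m1 : ℝ) * ((N + 3) * a) ≤ N0 * (e1 * (4 * ab * a)) := by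
    have e : (m1 : ℝ) * ((N + 3) * a) ≤ (m1 * N) * (4 * a) := by
      have : (m1 : ℝ) * ((N + 3) * a) ≤ m1 * ((4 * N) * a) := by
        apply mul_le_mul_of_nonneg_left _ (Nat.cast_nonneg _)
        apply mul_le_mul_of_nonneg_right _ ha0
        linarith
      refine this.trans (le_of_eq ?_)
      ring
    refine e.trans ?_
    refine (mul_le_mul_of_nonneg_right hc.m1le (by positivity)).trans (le_of_eq ?_)
    ring
  have a2 : (m2 : ℝ) * v ≤ N0 * (e1 * (k3 * v)) := by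
    refine (mul_le_mul_of_nonneg_right hc.m2le hv0).trans (le_of_eq ?_)
    ring
  have a3 : (N0 : ℝ) * (WU t s φ - e1 / (t / 2) * om (t / 2) (zu (up s φ))) ≤ N0 * WU t s φ := by
    apply mul_le_mul_of_nonneg_left _ hN0.le
    have : 0 ≤ e1 / (t / 2) * om (t / 2) (zu (up s φ)) := by positivity
    linarith
  have e : (N0 : ℝ) * (WU t s φ + e1 * (4 * ab * a + k3 * v)) =
      N0 * WU t s φ + N0 * (e1 * (4 * ab * a)) + N0 * (e1 * (k3 * v)) := by ring
  rw [e]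
  linarith

/-- `B` on the whole disc -/
theorem hf_B1 (ht : 0 < t) {z : ℂ} (hz : ‖z‖ ≤ 1) :
    ‖1 + z ^ 2 / (tp (t / 2) : ℂ) ^ 2‖ ≤ 1 + 1 / tp (t / 2) ^ 2 := by
  have htp := tp_pos (show 0 < t / 2 by linarith)
  refine (norm_add_le _ _).trans ?_
  rw [norm_one, norm_div, norm_pow, norm_pow, Complex.norm_real, Real.norm_eq_abs, sq_abs]
  have : ‖z‖ ^ 2 ≤ 1 := pow_le_one₀ (norm_nonneg _) hz
  gcongr

/-- `B` near the slit -/
theorem hf_B2 (ht : 0 < t) {s φ : ℝ} (hs : 0 ≤ s) (h0 : 0 ≤ φ) (h1 : φ ≤ psi0 t) :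
    ‖1 + zu (up s φ) ^ 2 / (tp (t / 2) : ℂ) ^ 2‖ ≤ 1 + 8 / tp (t / 2) ^ 2 * s := by
  have hη : 0 < t / 2 := by linarith
  have hpi := Real.pi_pos
  have htp := tp_pos hη
  have htp1 := tp_lt_one hη
  have hat : Real.arctan (tp (t / 2)) < Real.pi / 4 := by
    rw [← Real.arctan_one]
    exact Real.arctan_strictMono htp1
  have hφ : φ ≤ 2 * Real.arctan (tp (t / 2)) := h1
  have hc : 0 ≤ Real.cos φ := cos_nonneg' h0 (by linarith)
  rcases le_or_gt 1 s with hs1 | hs1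
  · refine (hf_B1 ht (zu_up_norm_le (s := s) hc)).trans ?_
    have : 1 / tp (t / 2) ^ 2 ≤ 8 / tp (t / 2) ^ 2 * s := by
      rw [div_mul_eq_mul_div]
      gcongr
      linarith
    linarith
  · have ht1 : 0 ≤ Real.tan (φ / 2) :=
      Real.tan_nonneg_of_nonneg_of_le_pi_div_two (by linarith) (by linarith)
    have ht2 : Real.tan (φ / 2) ≤ tp (t / 2) := by
      rcases hφ.lt_or_eq with h | h
      · calc Real.tan (φ / 2) ≤ Real.tan (Real.arctan (tp (t / 2))) :=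
              (Real.tan_lt_tan_of_nonneg_of_lt_pi_div_two (by linarith) (by linarith)
                (by linarith)).le
          _ = tp (t / 2) := Real.tan_arctan _
      · rw [h, show 2 * Real.arctan (tp (t / 2)) / 2 = Real.arctan (tp (t / 2)) by ring,
          Real.tan_arctan]
    set T := Real.tan (φ / 2) with hT
    have e0 : zu (up 0 φ) = ((-T : ℝ) : ℂ) * I := mz_up_zero hc
    set z := zu (up s φ) with hz
    set z0 := zu (up 0 φ) with hz0
    have hzn : ‖z‖ ≤ 1 := zu_up_norm_le hc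
    have hz0n : ‖z0‖ ≤ 1 := zu_up_norm_le hc
    have n1 : ‖1 + z0 ^ 2 / (tp (t / 2) : ℂ) ^ 2‖ ≤ 1 := by
      have e1 : 1 + z0 ^ 2 / (tp (t / 2) : ℂ) ^ 2 = ((1 - T ^ 2 / tp (t / 2) ^ 2 : ℝ) : ℂ) := by
        rw [e0]
        have hI : I ^ 2 = (-1 : ℂ) := Complex.I_sq
        push_cast
        rw [mul_pow, hI]
        ring
      rw [e1, Complex.norm_real, Real.norm_eq_abs, abs_le]
      have h3 : T ^ 2 / tp (t / 2) ^ 2 ≤ 1 := by
        rw [div_le_one (by positivity)]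
        exact pow_le_pow_left₀ ht1 ht2 2
      have h4 : 0 ≤ T ^ 2 / tp (t / 2) ^ 2 := by positivity
      constructor <;> linarith
    have n2 : ‖z - z0‖ ≤ 4 * s := by
      have h3 : ‖z - z0‖ ≤ 2 * ‖up s φ - up 0 φ‖ :=
        mz_sub (up_re_nonneg hc) (up_re_nonneg hc)
      have h4 := up_sub (φ := φ) (s := s) (by rw [abs_of_nonneg hs]; exact hs1.le)
      rw [abs_of_nonneg hs] at h4
      linarith
    have n3 : ‖z ^ 2 - z0 ^ 2‖ ≤ 8 * s := by
      have e : z ^ 2 - z0 ^ 2 = (z - z0) * (z + z0) := by ring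
      rw [e, norm_mul]
      have h5 : ‖z + z0‖ ≤ 2 := (norm_add_le _ _).trans (by linarith)
      calc ‖z - z0‖ * ‖z + z0‖ ≤ (4 * s) * 2 :=
            mul_le_mul n2 h5 (norm_nonneg _) (by linarith)
        _ = 8 * s := by ring
    have e2 : 1 + z ^ 2 / (tp (t / 2) : ℂ) ^ 2 = (1 + z0 ^ 2 / (tp (t / 2) : ℂ) ^ 2)
        + (z ^ 2 - z0 ^ 2) / (tp (t / 2) : ℂ) ^ 2 := by ring
    rw [e2]
    refine (norm_add_le _ _).trans ?_
    rw [norm_div, norm_pow, Complex.norm_real, Real.norm_eq_abs, sq_abs]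
    have h6 : ‖z ^ 2 - z0 ^ 2‖ / tp (t / 2) ^ 2 ≤ 8 / tp (t / 2) ^ 2 * s := by
      rw [div_mul_eq_mul_div]
      gcongr
    linarith

theorem hf_im {s φ : ℝ} (h : 0 ≤ Real.cos φ) (h0 : 0 ≤ φ) (hs : 0 ≤ s) :
    |(zu (up s φ)).im| ≤ 2 * φ := by
  have hre : 0 ≤ (up s φ).re := up_re_nonneg h
  have hne := one_add_ne hre
  have h2 : 0 < Complex.normSq (1 + up s φ) := Complex.normSq_pos.2 hne
  have e1 : (zu (up s φ)).im = -(2 * (up s φ).im) / Complex.normSq (1 + up s φ) := by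
    have : zu (up s φ) = 2 / (1 + up s φ) - 1 := by
      unfold BY.zu
      field_simp
      ring
    rw [this, Complex.sub_im, Complex.one_im, sub_zero, Complex.div_im]
    simp
    ring
  have e2 : (up s φ).im = Real.exp s * Real.sin φ := by
    unfold BY.up
    rw [Complex.exp_im]
    simp
  have h3 : Real.exp s ≤ Complex.normSq (1 + up s φ) := by
    rw [Complex.normSq_apply, Complex.add_re, Complex.add_im, up_re, e2, Complex.one_re,
      Complex.one_im]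
    have a1 := Real.sin_sq_add_cos_sq φ
    have a2 : 1 ≤ Real.exp s := Real.one_le_exp hs
    have a3 : 0 ≤ Real.exp s * Real.cos φ := mul_nonneg (Real.exp_pos _).le h
    have a4 : (1 + Real.exp s * Real.cos φ) * (1 + Real.exp s * Real.cos φ)
        + (0 + Real.exp s * Real.sin φ) * (0 + Real.exp s * Real.sin φ)
        = 1 + 2 * (Real.exp s * Real.cos φ) + Real.exp s ^ 2 * (Real.sin φ ^ 2 + Real.cos φ ^ 2) := by
      ring
    rw [a4, a1]
    nlinarith
  have h4 : |Real.sin φ| ≤ φ := by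
    have := Real.abs_sin_le_abs (x := φ)
    rwa [abs_of_nonneg h0] at this
  rw [e1, e2, abs_div, abs_neg, abs_mul, abs_mul, abs_of_pos (Real.exp_pos s), abs_of_pos h2,
    div_le_iff₀ h2]
  have h5 : (0 : ℝ) ≤ |Real.sin φ| := abs_nonneg _
  have h6 : |(2 : ℝ)| = 2 := by norm_num
  rw [h6]
  have h7 : Real.exp s * |Real.sin φ| ≤ Complex.normSq (1 + up s φ) * φ :=
    mul_le_mul h3 h4 h5 h2.le
  linarith

/-- **The field `hfar`.** -/
theorem hfar_all (hB : SB t η1 ρ1 w ρ τ b0 ab ab' k3 k3' θs C4 zN κk x2 gb N E) :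
    ∃ e0 : ℝ, 0 < e0 ∧ ∀ (e1 : ℝ) (N0 m1 m2 : ℕ) (q : ℝ[X]) (l : ℝ), e1 ≤ e0 →
      SC t η1 ab ab' k3 k3' θs e1 N N0 m1 m2 q l → ∀ sb : ℝ, 0 < sb → ∃ g' : ℝ, 0 < g' ∧
        ∀ s φ : ℝ, sb ≤ s → s ≤ Real.log (4 / dl t) → 0 ≤ φ → φ < Real.pi / 2 →
          (φ ≤ psi0 t - w ∨ psi0 t + w ≤ φ ∨ τ ≤ s) →
          bs (F0of t q E m1 m2) N0 (up s φ) ≤
            Real.exp (N0 * (s + hxU (UI t) (Real.exp (-s)) - g')) := by
  have ht := hB.ht
  have hη : 0 < t / 2 := by linarith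
  have hη1 : 0 < η1 := by linarith [hB.hη]
  have hpi := Real.pi_pos
  have htp := tp_pos hη
  have hab := hB.hab
  have hab' := hB.hab'
  have hk3 := hB.hk3
  have hτ := hB.hτ
  have hgb := hB.hgb
  have hA := A0_pos hη1
  set S := Real.log (4 / dl t) with hS
  obtain ⟨d, hd, hP4⟩ := hf_P4 hB
  set φ1 := min (d / 2) 1 with hφ1
  have hφ1pos : 0 < φ1 := by positivity
  obtain ⟨c1, hc1, h1⟩ := hf1 ht hφ1pos S
  obtain ⟨c2, hc2, h2⟩ := hf2 ht (p4 := psi0 t + w) (by linarith [hB.hw]) S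
  -- `om` along the slit
  have hp1 : psi0 t - w < 2 * Real.arctan (YE.tip η1) := by
    have h3 := hB.tip1
    have h4 : 0 < psi0 t - w := by linarith [hB.hwψ]
    have h5 : psi0 t - w < Real.pi / 2 := by linarith [hB.hwπ, hB.hw]
    have h6 : Real.arctan (Real.tan ((psi0 t - w) / 2)) = (psi0 t - w) / 2 :=
      Real.arctan_tan (by linarith) (by linarith)
    have h7 : Real.arctan (Real.tan ((psi0 t - w) / 2)) < Real.arctan (tp η1) :=
      Real.arctan_strictMono h3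
    have h8 : tp η1 = YE.tip η1 := rfl
    rw [h6, h8] at h7
    linarith
  obtain ⟨Co, hCo, hom⟩ := om_lip hη1 hp1
  set Ca := max Co (η1 / τ) with hCa
  set Cv := max (8 / tp (t / 2) ^ 2) (1 / (τ * tp (t / 2) ^ 2)) with hCv
  set K1 := 4 * ab * Ca + k3 * Cv with hK1
  set K2 := 4 * ab * η1 + k3 * (1 / tp (t / 2) ^ 2) with hK2
  have hK1pos : 0 < K1 := by positivity
  have hK2pos : 0 < K2 := by positivity
  refine ⟨min (c1 / (2 * K1)) (c2 / (2 * K2)), by positivity, ?_⟩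
  intro e1 N0 m1 m2 q l he hc sb hsb
  have he1 := hc.he1
  have hN0 : (0 : ℝ) < N0 := by exact_mod_cast hc.N0pos
  have hxi : ∀ s : ℝ, sb ≤ s → 1 - 2 / (Real.exp sb + 1) ≤ 1 - 2 / (Real.exp s + 1) := by
    intro s hs
    have e1 : Real.exp sb ≤ Real.exp s := Real.exp_le_exp.2 hs
    have e2 := Real.exp_pos sb
    have : 2 / (Real.exp s + 1) ≤ 2 / (Real.exp sb + 1) := by gcongr
    linarith
  have hxi0 : 0 < 1 - 2 / (Real.exp sb + 1) := by
    have e1 : 1 < Real.exp sb := Real.one_lt_exp_iff.2 hsb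
    rw [sub_pos, div_lt_one (by linarith)]
    linarith
  set g1 := 7 / 32 * (ab' / A0 η1) * e1 * (1 - 2 / (Real.exp sb + 1)) with hg1
  set g2 := e1 * (gb / 2) with hg2
  set g3 := c1 / 2 * sb with hg3
  set g4 := c2 / 2 with hg4
  have hg1p : 0 < g1 := by positivity
  have hg2p : 0 < g2 := by positivity
  have hg3p : 0 < g3 := by positivity
  have hg4p : 0 < g4 := by positivity
  refine ⟨min (min g1 g2) (min g3 g4), by positivity, ?_⟩
  intro s φ hs hsS h0 hφ hreg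
  have hs0 : 0 < s := by linarith
  have hcos : 0 < Real.cos φ := Real.cos_pos_of_mem_Ioo ⟨by linarith, hφ⟩
  have mg1 : min (min g1 g2) (min g3 g4) ≤ g1 := (min_le_left _ _).trans (min_le_left _ _)
  have mg2 : min (min g1 g2) (min g3 g4) ≤ g2 := (min_le_left _ _).trans (min_le_right _ _)
  have mg3 : min (min g1 g2) (min g3 g4) ≤ g3 := (min_le_right _ _).trans (min_le_left _ _)
  have mg4 : min (min g1 g2) (min g3 g4) ≤ g4 := (min_le_right _ _).trans (min_le_right _ _)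
  set mg := min (min g1 g2) (min g3 g4) with hmg
  have hz1 := hf_norm_lt (s := s) hcos
  rcases le_or_gt ‖zu (up s φ)‖ zN with hz | hz
  · refine (hf_iiia hB hc hs0 h0 hφ hz).trans (Real.exp_le_exp.2 ?_)
    apply mul_le_mul_of_nonneg_left _ hN0.le
    have h3 : g1 ≤ 7 / 32 * (ab' / A0 η1) * e1 * (1 - 2 / (Real.exp s + 1)) :=
      mul_le_mul_of_nonneg_left (hxi s hs) (by positivity)
    linarith
  rcases le_or_gt φ φ1 with hφ1' | hφ1'
  · have h3 : P4 t η1 ab k3 C4 N (zu (up s φ)) ≤ -(gb / 2) := by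
      apply hP4
      · linarith [hB.hx2z, hB.hx2]
      · exact hz1
      · have := hf_re hcos.le hs0
        have := hxi s hs
        linarith
      · have := hf_im (s := s) hcos.le h0 hs0.le
        have h4 : φ1 ≤ d / 2 := min_le_left _ _
        linarith
    refine (hf_iiib hB hc hs0 h0 hφ h3).trans (Real.exp_le_exp.2 ?_)
    apply mul_le_mul_of_nonneg_left _ hN0.le
    linarith
  by_cases hreg2 : psi0 t + w ≤ φ
  · -- beyond the slit
    have h3 := h2 s φ hs0 hsS hreg2 hφ.le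
    have h4 := hf_crude (N := N) (E := E) hB hc (s := s) (a := η1) (v := 1 / tp (t / 2) ^ 2) h0 hφ
      (om_le hη1 hz1.le) (by positivity) (hf_B1 ht hz1.le)
    refine h4.trans (Real.exp_le_exp.2 ?_)
    apply mul_le_mul_of_nonneg_left _ hN0.le
    have h5 : e1 * K2 ≤ c2 / 2 := by
      have h6 : e1 ≤ c2 / (2 * K2) := he.trans (min_le_right _ _)
      calc e1 * K2 ≤ c2 / (2 * K2) * K2 := mul_le_mul_of_nonneg_right h6 hK2pos.le
        _ = c2 / 2 := by field_simp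
    linarith
  · -- off the axis, linear rate
    have h3 := h1 s φ hs0 hsS hφ1'.le hφ.le
    have ha : om η1 (zu (up s φ)) ≤ Ca * s := by
      rcases hreg with h | h | h
      · have h5 := hom s φ h0 h
        rw [abs_of_pos hs0] at h5
        exact h5.trans (mul_le_mul_of_nonneg_right (le_max_left _ _) hs0.le)
      · exact absurd h hreg2
      · calc om η1 (zu (up s φ)) ≤ η1 := om_le hη1 hz1.le
          _ = η1 / τ * τ := by field_simp
          _ ≤ η1 / τ * s := mul_le_mul_of_nonneg_left h (by positivity)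
          _ ≤ Ca * s := mul_le_mul_of_nonneg_right (le_max_right _ _) hs0.le
    have hv : ‖1 + zu (up s φ) ^ 2 / (tp (t / 2) : ℂ) ^ 2‖ ≤ 1 + Cv * s := by
      rcases hreg with h | h | h
      · refine (hf_B2 ht hs0.le h0 (by linarith [hB.hw])).trans ?_
        have := mul_le_mul_of_nonneg_right (le_max_left (8 / tp (t / 2) ^ 2)
          (1 / (τ * tp (t / 2) ^ 2))) hs0.le
        linarith
      · exact absurd h hreg2
      · refine (hf_B1 ht hz1.le).trans ?_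
        have h5 : 1 / tp (t / 2) ^ 2 ≤ 1 / (τ * tp (t / 2) ^ 2) * s := by
          have : 1 / (τ * tp (t / 2) ^ 2) * s = 1 / tp (t / 2) ^ 2 * (s / τ) := by
            field_simp
          rw [this]
          have h6 : 1 ≤ s / τ := by rw [le_div_iff₀ hτ]; linarith
          exact le_mul_of_one_le_right (by positivity) h6
        have := mul_le_mul_of_nonneg_right (le_max_right (8 / tp (t / 2) ^ 2)
          (1 / (τ * tp (t / 2) ^ 2))) hs0.le
        linarith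
    have h4 := hf_crude (N := N) (E := E) hB hc (s := s) (a := Ca * s) (v := Cv * s) h0 hφ
      ha (by positivity) hv
    refine h4.trans (Real.exp_le_exp.2 ?_)
    apply mul_le_mul_of_nonneg_left _ hN0.le
    have h5 : e1 * K1 ≤ c1 / 2 := by
      have h6 : e1 ≤ c1 / (2 * K1) := he.trans (min_le_left _ _)
      calc e1 * K1 ≤ c1 / (2 * K1) * K1 := mul_le_mul_of_nonneg_right h6 hK1pos.le
        _ = c1 / 2 := by field_simp
    have e : e1 * (4 * ab * (Ca * s) + k3 * (Cv * s)) = e1 * K1 * s := by rw [hK1]; ring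
    rw [e]
    have h6 : e1 * K1 * s ≤ c1 / 2 * s := mul_le_mul_of_nonneg_right h5 hs0.le
    have h7 : g3 ≤ c1 / 2 * s := mul_le_mul_of_nonneg_left hs (by positivity)
    linarith

end Pool.Agent.Lib.MP_0430e4_lc.YA
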